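import Pool.Agent.H65.CM4.Targets1

/-!
# Targets of the part B: Epstein zeta functions of the lattices, and the twisted second moment
-/

set_option autoImplicit false

open MeasureTheory Set Filter NumberField NumberField.InfinitePlace
open scoped Real

namespace Pool.Agent.H89.CM4

open Pool.Agent.H65.CM4

section

variable {k : Type} [Field k] [NumberField k]

/-! ### Definitions of the part -/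

/-- the lattice of the multiples of an ideal -/
def kO (I : Ideal (𝓞 k)) : La k where
  carrier := {u | u.1 ∈ I ∧ u.2 ∈ I}
  zero_mem' := ⟨I.zero_mem, I.zero_mem⟩
  add_mem' := fun ha hb => ⟨I.add_mem ha.1 hb.1, I.add_mem ha.2 hb.2⟩
  smul_mem' := fun c _ ha => ⟨I.mul_mem_left c ha.1, I.mul_mem_left c ha.2⟩

open Classical in
/-- the divisors of an ideal -/
noncomputable def dv (I : Ideal (𝓞 k)) : Finset (Ideal (𝓞 k)) := (Id k (nm I)).filter (fun J => J ∣ I)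

/-- the translate of a form -/
def tr (x : 𝓞 k) (Q : QF k) : QF k :=
  (Q.1, Q.2.1 + 2 * (Q.1 * x), Q.2.2 + Q.2.1 * x + Q.1 * x ^ 2)

/-- the lattice `M` contains the multiples of `b` -/
def Mb (b : ℕ) (M : La k) : Prop := ∀ u : V2 k, (b : 𝓞 k) • u ∈ M

/-- the ideal `I` is squarefree and prime to `b` -/
structure Sf (b : ℕ) (I : Ideal (𝓞 k)) : Prop where
  ne : I ≠ ⊥
  sq : Squarefree I
  cop : I ⊔ Ideal.span {(b : 𝓞 k)} = ⊤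

/-- the region of the complex parameters -/
def Rg (B K r t : ℝ) (x y : Pl k → ℂ) : Prop :=
  ∀ v : Pl k, |(x v).re| < B * r ∧ r / B < (y v).re ∧ (y v).re < B * r ∧
    K * (1 + |t|) * |(x v).im| < r ∧ K * (1 + |t|) * |(y v).im| < r

variable [IsTotallyReal k]

/-- totally positive definite forms -/
def Pd (Q : QF k) : Prop := ∀ v : Pl k, 0 < rv v (Q.1 : k) ∧ 0 < rv v (dsc Q : k)

open Classical in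
/-- the coefficients of the expansion of the twisted sums -/
noncomputable def cf (s : ℂ) (α : Ideal (𝓞 k) → ℂ) (b : ℕ) (A : ℝ) (M : La k) (I : Ideal (𝓞 k))
    (L : La k) (x y : Pl k → ℂ) : ℂ :=
  ∑ g ∈ (Sq b A).filter (fun g => I * g ∈ Sq b A), α (I * g) / ((nm (I * g) : ℝ) : ℂ) *
    ∑ J ∈ dv g, ((nm J : ℝ) : ℂ) ^ (1 - 2 * s) * ((nm g : ℝ) : ℂ) ^ s * Ec s (M ⊓ L ⊓ kO J) x y

/-- the size of the rows in the variable `t` -/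
noncomputable def ht (k : Type) [Field k] [NumberField k] (j : ℕ) (t : ℝ) : ℝ :=
  (1 + |t|) ^ j * Real.exp (-(π / 2 * (dg k * |t|)))

end

section

variable (k : Type) [Field k] [NumberField k] [IsTotallyReal k]

/-! ### The kernel and the functional equation -/

/-- (KCB) the bound of the kernel. -/
def T_KCB : Prop :=
  ∀ κ : ℝ, 0 < κ → κ ≤ 1 / 8 → ∃ (C : ℝ) (j : ℕ), 0 ≤ C ∧ ∀ s r : ℂ, |s.re - 1 / 2| ≤ κ →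
    0 < r.re → 10 * (1 + |s.im|) * |r.im| ≤ r.re →
    ‖Kc (dg k) s r‖ ≤ C * ht k j s.im * r.re ^ (-(1 / 2 + 2 * κ)) * (1 + r.re) ^ (-(3 : ℝ))

/-- (KCD) the kernel is holomorphic. -/
def T_KCD : Prop :=
  ∀ s r : ℂ, |s.re - 1 / 2| ≤ 1 / 8 → 0 < r.re → 10 * (1 + |s.im|) * |r.im| ≤ r.re →
    DifferentiableAt ℂ (fun r => Kc (dg k) s r) r

open Classical in
/-- (EZA) the Epstein zeta functions: continuation and functional equation. -/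
def T_EZA : Prop :=
  ∀ (M : La k) (x y : Pl k → ℝ), ix M ≠ 0 → (∀ v, 0 < y v) →
    DifferentiableOn ℂ (fun s => Ez s M x y) {s : ℂ | 0 < s.re ∧ s.re < 2} ∧
    ∀ s : ℂ, 1 < s.re → s.re < 2 →
      Summable (fun u : V2 k => if u ∈ M ∧ u ∈ Fo k then
        (qn (fun v => (x v : ℂ)) (fun v => (y v : ℂ)) u / (ix M : ℂ)) ^ (-s) else 0) ∧
      Ez s M x y = gG s ^ dg k * ∑' u : V2 k, if u ∈ M ∧ u ∈ Fo k then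
        (qn (fun v => (x v : ℂ)) (fun v => (y v : ℂ)) u / (ix M : ℂ)) ^ (-s) else 0

/-! ### Metrics and lattices -/

/-- (QCB) the metric with complex parameters. -/
def T_QCB : Prop :=
  ∀ B : ℝ, 1 ≤ B → ∃ K c C : ℝ, 1 ≤ K ∧ 0 < c ∧ c ≤ 1 ∧ 1 ≤ C ∧
    ∀ (r t : ℝ) (x y : Pl k → ℂ) (u : V2 k), 0 < r → Rg B K r t x y → u ≠ 0 →
      0 < (qn x y u).re ∧ 10 * (1 + |t|) * |(qn x y u).im| ≤ (qn x y u).re ∧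
        c * nn r u ≤ (qn x y u).re ∧ (qn x y u).re ≤ C * nn r u

/-- (QZR) the metric with real parameters. -/
def T_QZR : Prop :=
  (∀ (x y : Pl k → ℝ) (u : V2 k), (∀ v, 0 < y v) → u ≠ 0 →
    (qn (fun v => (x v : ℂ)) (fun v => (y v : ℂ)) u).im = 0 ∧
      0 < (qn (fun v => (x v : ℂ)) (fun v => (y v : ℂ)) u).re) ∧
  (∀ (x y : Pl k → ℂ) (u : V2 k) (e : (𝓞 k)ˣ), qn x y (((e : 𝓞 k)) • u) = qn x y u) ∧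
  (∀ (x y : Pl k → ℂ) (u : V2 k) (a : 𝓞 k),
    qn (fun v => x v + ((rv v (a : k) : ℝ) : ℂ)) y u = qn x y (u.1 + a * u.2, u.2)) ∧
  ∀ Q : QF k, Pd Q → (∀ v, 0 < zy Q v) ∧ ∀ u : V2 k,
    qn (fun v => (zx Q v : ℂ)) (fun v => (zy Q v : ℂ)) u =
      ((∏ v : Pl k, rv v (val Q u : k) / Real.sqrt (rv v (dsc Q : k)) : ℝ) : ℂ)

open Classical in
/-- (FOR) the representatives of the vectors modulo the units. -/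
def T_FOR : Prop :=
  (∀ u : V2 k, u ≠ 0 → ∃! w : V2 k, w ∈ Fo k ∧ ∃ e : (𝓞 k)ˣ, w = (e : 𝓞 k) • u) ∧
  ∀ (T : V2 k ≃ₗ[𝓞 k] V2 k) (M : La k) (f : V2 k → ℂ),
    (∀ (e : (𝓞 k)ˣ) (u : V2 k), f ((e : 𝓞 k) • u) = f u) →
    ∑' u : V2 k, (if u ∈ M ∧ u ∈ Fo k then f (T u) else 0) =
      ∑' u : V2 k, if u ∈ M.map (T : V2 k →ₗ[𝓞 k] V2 k) ∧ u ∈ Fo k then f u else 0

/-- (BLV) balanced multiples of the vectors. -/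
def T_BLV : Prop :=
  ∃ C : ℝ, 1 ≤ C ∧ ∀ (r : ℝ) (u : V2 k), 0 < r → u ≠ 0 → ∃ e : (𝓞 k)ˣ, ∀ v : Pl k,
    nn r u ^ (1 / (dg k : ℝ)) / C ≤ nr r v ((e : 𝓞 k) • u) ∧
      nr r v ((e : 𝓞 k) • u) ≤ C * nn r u ^ (1 / (dg k : ℝ))

/-- (BIX) almost bases of the lattices, and the index. -/
def T_BIX : Prop :=
  (∀ M : La k, ix M ≠ 0 → ∀ u ∈ M, ∀ v ∈ M, det u v ≠ 0 → (ix M : ℝ) ≤ Nr (det u v : k)) ∧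
  ∃ C : ℝ, 1 ≤ C ∧ ∀ M : La k, ix M ≠ 0 → ∃ u ∈ M, ∃ v ∈ M, det u v ≠ 0 ∧
    Nr (det u v : k) ≤ C * ix M

/-- (DUL) the dual lattice. -/
def T_DUL : Prop :=
  ∃ C : ℝ, 1 ≤ C ∧ ∀ M : La k, ix M ≠ 0 → ix (du M) ≠ 0 ∧
    (∀ r : ℝ, 0 < r → ∀ u ∈ du M, u ≠ 0 →
      mn r M * ((dk k * ix M : ℕ) : ℝ) ^ (2 * dg k) ≤ C * (ix M : ℝ) ^ 2 * nn r u) ∧
    ∀ u ∈ du M, ∀ v ∈ du M, det u v ≠ 0 →
      ((dk k * ix M : ℕ) : ℝ) ^ (2 * dg k) ≤ C * ix M * Nr (det u v : k)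

/-- (LCN) the number of the vectors of a lattice modulo the units. -/
def T_LCN : Prop :=
  ∃ C : ℝ, 1 ≤ C ∧ ∀ (r D X : ℝ) (M : La k) (F : Finset (V2 k)), 0 < r → ix M ≠ 0 → 0 < D →
    (∀ u ∈ M, ∀ v ∈ M, det u v ≠ 0 → D ≤ Nr (det u v : k)) → mn r M ≤ X →
    (∀ u ∈ F, u ∈ M ∧ u ∈ Fo k ∧ nn r u ≤ X) →
    (F.card : ℝ) ≤ C * (Real.sqrt (X / mn r M) + X / D)

open Classical in
/-- (LSM) a sum over the vectors of a lattice modulo the units. -/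
def T_LSM : Prop :=
  ∀ κ C₁ : ℝ, 0 < κ → κ ≤ 1 / 8 → 1 ≤ C₁ → ∃ C : ℝ, 1 ≤ C ∧ ∀ (r m : ℝ) (M : La k), 0 < r →
    ix M ≠ 0 → 0 < m → (∀ u ∈ M, ∀ v ∈ M, det u v ≠ 0 → m ≤ C₁ * Nr (det u v : k)) →
    Summable (fun u : V2 k => if u ∈ M ∧ u ∈ Fo k then
      (nn r u / m) ^ (-(1 / 2 + 2 * κ)) * (1 + nn r u / m) ^ (-(3 : ℝ)) else 0) ∧
    ∑' u : V2 k, (if u ∈ M ∧ u ∈ Fo k then
      (nn r u / m) ^ (-(1 / 2 + 2 * κ)) * (1 + nn r u / m) ^ (-(3 : ℝ)) else 0) ≤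
      C * (m / mn r M) ^ (1 / 2 + 2 * κ)

/-- (ECB) the bound of the Epstein zeta functions. -/
def T_ECB : Prop :=
  ∀ B : ℝ, 1 ≤ B → ∃ K : ℝ, 1 ≤ K ∧ ∀ κ : ℝ, 0 < κ → κ ≤ 1 / 8 → ∃ (C : ℝ) (j : ℕ), 0 ≤ C ∧
    ∀ (r : ℝ) (M : La k) (s : ℂ) (x y : Pl k → ℂ), 0 < r → ix M ≠ 0 → |s.re - 1 / 2| ≤ κ →
      Rg B K r s.im x y →
      ‖Ec s M x y‖ ≤ C * ht k j s.im * (ix M / mn r M) ^ (1 / 2 + 2 * κ)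

/-- (ECC) the Epstein zeta functions are holomorphic along holomorphic curves of parameters. -/
def T_ECC : Prop :=
  ∀ B : ℝ, 1 ≤ B → ∃ K : ℝ, 1 ≤ K ∧ ∀ (r : ℝ) (M : La k) (s : ℂ) (X Y : ℂ → Pl k → ℂ) (ζ : ℂ),
    0 < r → ix M ≠ 0 → |s.re - 1 / 2| ≤ 1 / 8 → (∀ v, Differentiable ℂ (fun w => X w v)) →
    (∀ v, Differentiable ℂ (fun w => Y w v)) → Rg B K r s.im (X ζ) (Y ζ) →
    DifferentiableAt ℂ (fun w => Ec s M (X w) (Y w)) ζ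

/-- (CA1) Cauchy's formula on a disc, for a sum of squares. -/
def T_CA1 : Prop :=
  ∀ (ι : Type) (S : Finset ι) (f : ι → ℂ → ℂ) (a : ℂ) (R X : ℝ) (z : ι → ℂ), 0 < R →
    (∀ i ∈ S, ∀ w : ℂ, ‖w - a‖ ≤ 2 * R → DifferentiableAt ℂ (f i) w) →
    (∀ i ∈ S, ‖z i - a‖ ≤ R) →
    (∀ w : ℂ, ‖w - a‖ = 2 * R → ∑ i ∈ S, ‖f i w‖ ^ 2 ≤ X) → ∑ i ∈ S, ‖f i (z i)‖ ^ 2 ≤ 4 * X

/-- (CAS) Cauchy's formula on a polydisc, for a sum of squares. -/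
def T_CAS : Prop :=
  ∀ (ι p : Type) [Fintype p] [DecidableEq p] (S : Finset ι) (f : ι → (p → ℂ) → ℂ) (a : p → ℂ) (R X : ℝ)
    (z : ι → p → ℂ), 0 < R →
    (∀ i ∈ S, ∀ w : p → ℂ, (∀ v, ‖w v - a v‖ ≤ 2 * R) → ∀ v,
      DifferentiableAt ℂ (fun ζ => f i (Function.update w v ζ)) (w v)) →
    (∀ i ∈ S, ∀ v, ‖z i v - a v‖ ≤ R) →
    (∀ w : p → ℂ, (∀ v, ‖w v - a v‖ = 2 * R) → ∑ i ∈ S, ‖f i w‖ ^ 2 ≤ X) →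
    ∑ i ∈ S, ‖f i (z i)‖ ^ 2 ≤ 4 ^ Fintype.card p * X

/-! ### The expansion -/

/-- (IXC) the indices. -/
def T_IXC : Prop :=
  ∀ (b : ℕ) (M : La k), 0 < b → Mb b M → 0 < ix M ∧ ix M ≤ b ^ (2 * dg k) ∧
    ∀ (I J : Ideal (𝓞 k)) (L : La k), Sf b I → Sf b J → I ⊔ J = ⊤ → L ∈ Ls I →
      ix (M ⊓ L) = ix M * Ideal.absNorm I ∧
      ix (M ⊓ L ⊓ kO J) = ix M * Ideal.absNorm I * Ideal.absNorm J ^ 2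

/-- (KMN) the minimum of the multiples of an ideal. -/
def T_KMN : Prop :=
  ∃ C : ℝ, 1 ≤ C ∧ ∀ (b : ℕ) (M : La k) (I J : Ideal (𝓞 k)) (L : La k) (r : ℝ), 0 < b → Mb b M →
    Sf b I → Sf b J → I ⊔ J = ⊤ → L ∈ Ls I → 0 < r →
    nm J ^ 2 * mn r L ≤ C * mn r (M ⊓ L ⊓ kO J)

/-- (MNL) lower bounds of the minimum. -/
def T_MNL : Prop :=
  ∀ (r : ℝ) (M : La k), 1 ≤ r → ix M ≠ 0 → 1 / r ^ dg k ≤ mn r M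

open Classical in
/-- (CNL) the number of the lattices containing a vector. -/
def T_CNL : Prop :=
  ∀ (g : Ideal (𝓞 k)) (u : V2 k), g ≠ ⊥ → Squarefree g →
    (((Ls g).filter (fun L => u ∈ L)).card : ℝ) = ∑ J ∈ (dv g).filter (fun J => u ∈ kO J), nm J

open Classical in
/-- (HEC) the Hecke relation. -/
def T_HEC : Prop :=
  ∀ (b : ℕ) (M : La k) (I g : Ideal (𝓞 k)) (L' : La k) (x y : Pl k → ℝ) (s : ℂ), 0 < b → Mb b M →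
    Sf b (I * g) → L' ∈ Ls I → (∀ v, 0 < y v) → 0 < s.re → s.re < 2 →
    ∑ L ∈ (Ls (I * g)).filter (fun L => L ≤ L'), Ez s (M ⊓ L) x y =
      ∑ J ∈ dv g, ((nm J : ℝ) : ℂ) ^ (1 - 2 * s) * ((nm g : ℝ) : ℂ) ^ s *
        Ez s (M ⊓ L' ⊓ kO J) x y

open Classical in
/-- (IND) the indicator function. -/
def T_IND : Prop :=
  ∀ (I : Ideal (𝓞 k)) (L : La k) (Q : QF k), I ≠ ⊥ → Squarefree I → L ∈ Ls I →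
    (if Dv I L Q then (1 : ℝ) else 0) = (1 / nm I) * ∑ J ∈ dv I, Rn J L Q

/-- (EXP) the expansion of the twisted sums. -/
def T_EXP : Prop :=
  ∀ (b : ℕ) (M : La k) (s : ℂ) (α : Ideal (𝓞 k) → ℂ) (A : ℝ) (Q : QF k), 0 < b → Mb b M →
    0 < s.re → s.re < 2 → 1 ≤ A → Pd Q →
    Bf s α b A M Q = ∑ I ∈ Sq b A, ∑ L ∈ Ls I,
      cf s α b A M I L (fun v => (zx Q v : ℂ)) (fun v => (zy Q v : ℂ)) * (Rn I L Q : ℂ)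

/-- (CFB) the bound of the coefficients. -/
def T_CFB : Prop :=
  ∀ B : ℝ, 1 ≤ B → ∃ K : ℝ, 1 ≤ K ∧ ∀ (b : ℕ) (κ : ℝ), 0 < b → 0 < κ → κ ≤ 1 / 32 →
    ∃ (C : ℝ) (j : ℕ), 0 ≤ C ∧
    ∀ (M : La k) (s : ℂ) (α : Ideal (𝓞 k) → ℂ) (A r : ℝ) (I : Ideal (𝓞 k)) (L : La k)
      (x y : Pl k → ℂ), Mb b M → |s.re - 1 / 2| ≤ κ → (∀ J, ‖α J‖ ≤ 1) → 1 ≤ A → 1 ≤ r →
      I ∈ Sq b A → L ∈ Ls I → Rg B K r s.im x y →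
      ‖cf s α b A M I L x y‖ ^ 2 * nm I ^ 2 * mn r L ≤
        C * ht k j s.im ^ 2 * A * (A * r ^ dg k) ^ (16 * κ)

/-- (TRI) the twisted sums are invariant under translations. -/
def T_TRI : Prop :=
  ∀ (b : ℕ) (M : La k) (s : ℂ) (α : Ideal (𝓞 k) → ℂ) (A : ℝ) (Q : QF k) (x : 𝓞 k), 0 < b →
    Mb b M → Pd Q → Bf s α b A M (tr ((b : 𝓞 k) * x) Q) = Bf s α b A M Q

/-! ### The second moment -/

/-- (CEL) the twisted second moment over a cell. -/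
def T_CEL : Prop :=
  ∀ (R : Ch k) (b : ℕ) (B : ℝ), Adm R b → 1 ≤ B → ∀ ε : ℝ, 0 < ε →
    ∃ κ : ℝ, 0 < κ ∧ κ ≤ 1 / 32 ∧ ∃ δ : ℝ, 0 < δ ∧ δ ≤ 1 / 8 ∧ δ ≤ ε ∧
    ∃ (K C : ℝ) (j : ℕ), 1 ≤ K ∧ 0 ≤ C ∧
    ∀ (s : ℂ) (y r A : ℝ) (c₁ c₂ : Pl k → ℝ) (P : RF k) (α : Ideal (𝓞 k) → ℂ) (M : La k)
      (S : Finset (QF k)),
      |s.re - 1 / 2| ≤ κ → 1 ≤ y → 1 ≤ r → r ≤ B * y → 1 ≤ A → A ≤ y ^ (dg k * (1 + δ)) →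
      (∀ I, ‖α I‖ ≤ 1) → Gd B y r P → Mb b M →
      (∀ v, |c₁ v| ≤ B * r ∧ r / B ≤ c₂ v ∧ c₂ v ≤ B * r) →
      (∀ Q ∈ S, Pd Q ∧ dq r P (rl Q) ≤ y ^ (2 - 2 * δ) ∧
        ∀ v, K * (1 + |s.im|) * |zx Q v - c₁ v| ≤ r ∧ K * (1 + |s.im|) * |zy Q v - c₂ v| ≤ r) →
      ∑ Q ∈ S, ‖Bf s α b A M Q‖ ^ 2 ≤
        C * ht k j s.im ^ 2 * y ^ (dg k * (3 + ε)) * r ^ dg k * A

/-- (CVR) covering by cells. -/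
def T_CVR : Prop :=
  ∀ B : ℝ, 1 ≤ B → ∃ C : ℝ, 1 ≤ C ∧ ∀ (y r d₁ d₂ : ℝ) (S : Finset (QF k)), 1 ≤ y → 1 ≤ r →
    r ≤ B * y → 0 < d₁ → d₁ ≤ 1 → 0 < d₂ → d₂ ≤ 1 →
    (∀ Q ∈ S, ∀ v : Pl k, y / (B * r) ≤ rv v (Q.1 : k) ∧ rv v (Q.1 : k) ≤ B * y / r ∧
      |rv v (Q.2.1 : k)| ≤ B * y ∧ y ^ 2 / B ≤ rv v (dsc Q : k) ∧ rv v (dsc Q : k) ≤ B * y ^ 2) →
    ∃ f : QF k → ℕ, (∀ Q ∈ S, (f Q : ℝ) ≤ C * d₁⁻¹ ^ (3 * dg k) * d₂⁻¹ ^ (2 * dg k)) ∧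
      ∀ Q ∈ S, Gd (C * B) y r (rl Q) ∧ (∀ v, |zx Q v| ≤ C * r ∧ r / C ≤ zy Q v ∧ zy Q v ≤ C * r) ∧
        ∀ Q' ∈ S, f Q = f Q' → dq r (rl Q) (rl Q') ≤ (d₁ * y) ^ 2 ∧
          ∀ v, |zx Q' v - zx Q v| ≤ d₂ * r ∧ |zy Q' v - zy Q v| ≤ d₂ * r

/-- (BOX) the twisted second moment over a box. -/
def T_BOX : Prop :=
  ∀ (R : Ch k) (b : ℕ) (B : ℝ), Adm R b → 1 ≤ B → ∀ ε : ℝ, 0 < ε →
    ∃ κ : ℝ, 0 < κ ∧ κ ≤ 1 / 32 ∧ ∃ δ : ℝ, 0 < δ ∧ δ ≤ 1 / 8 ∧ ∃ (C : ℝ) (j : ℕ), 0 ≤ C ∧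
    ∀ (s : ℂ) (y r A : ℝ) (α : Ideal (𝓞 k) → ℂ) (M : La k) (S : Finset (QF k)),
      |s.re - 1 / 2| ≤ κ → 1 ≤ y → 1 ≤ r → r ≤ B * y → 1 ≤ A → A ≤ y ^ (dg k * (1 + δ)) →
      (∀ I, ‖α I‖ ≤ 1) → Mb b M →
      (∀ Q ∈ S, ∀ v : Pl k, y / (B * r) ≤ rv v (Q.1 : k) ∧ rv v (Q.1 : k) ≤ B * y / r ∧
        |rv v (Q.2.1 : k)| ≤ B * y ∧ y ^ 2 / B ≤ rv v (dsc Q : k) ∧ rv v (dsc Q : k) ≤ B * y ^ 2) →
      ∑ Q ∈ S, ‖Bf s α b A M Q‖ ^ 2 ≤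
        C * ht k j s.im ^ 2 * y ^ (dg k * (3 + ε)) * r ^ dg k * A

/-- (RDB) the twisted second moment over the reduced forms of a given height. -/
def T_RDB : Prop :=
  ∀ (R : Ch k) (b : ℕ) (B : ℝ), Adm R b → 1 ≤ B → ∀ ε : ℝ, 0 < ε →
    ∃ κ : ℝ, 0 < κ ∧ κ ≤ 1 / 32 ∧ ∃ δ : ℝ, 0 < δ ∧ δ ≤ 1 / 8 ∧ ∃ (C : ℝ) (j : ℕ), 0 ≤ C ∧
    ∀ (s : ℂ) (y r A : ℝ) (α : Ideal (𝓞 k) → ℂ) (M : La k) (S : Finset (QF k)),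
      |s.re - 1 / 2| ≤ κ → 1 ≤ y → 1 ≤ r → r ≤ B * y → 1 ≤ A → A ≤ y ^ (dg k * (1 + δ)) →
      (∀ I, ‖α I‖ ≤ 1) → Mb b M →
      (∀ Q ∈ S, ∀ v : Pl k, y / (B * r) ≤ rv v (Q.1 : k) ∧ rv v (Q.1 : k) ≤ B * y / r ∧
        |rv v (Q.2.1 : k)| ≤ B * rv v (Q.1 : k) ∧ y ^ 2 / B ≤ rv v (dsc Q : k) ∧
        rv v (dsc Q : k) ≤ B * y ^ 2) →
      ∑ Q ∈ S, ‖Bf s α b A M Q‖ ^ 2 ≤ C * ht k j s.im ^ 2 * y ^ (dg k * (3 + ε)) * A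

end

end Pool.Agent.H89.CM4
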