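import Pool.Agent.H89.CM4.Targets2

/-!
# More targets of the part B
-/

set_option autoImplicit false

open MeasureTheory Set Filter NumberField NumberField.InfinitePlace
open scoped Real

namespace Pool.Agent.H89.CM4

open Pool.Agent.H65.CM4

variable (k : Type) [Field k] [NumberField k] [IsTotallyReal k]

/-- (IXF) the index of the lattice of two vectors. -/
def T_IXF : Prop :=
  ∀ u v : V2 k, det u v ≠ 0 →
    (ix (Submodule.span (𝓞 k) ({u, v} : Set (V2 k))) : ℝ) = Nr (det u v : k)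

open Classical in
/-- (HE1) the Hecke relation in the region of absolute convergence. -/
def T_HE1 : Prop :=
  ∀ (b : ℕ) (M : La k) (I g : Ideal (𝓞 k)) (L' : La k) (x y : Pl k → ℝ) (s : ℂ), 0 < b → Mb b M →
    Sf b (I * g) → L' ∈ Ls I → (∀ v, 0 < y v) → 1 < s.re → s.re < 2 →
    ∑ L ∈ (Ls (I * g)).filter (fun L => L ≤ L'), Ez s (M ⊓ L) x y =
      ∑ J ∈ dv g, ((nm J : ℝ) : ℂ) ^ (1 - 2 * s) * ((nm g : ℝ) : ℂ) ^ s *
        Ez s (M ⊓ L' ⊓ kO J) x y

/-- (FML) there are finitely many lattices containing the multiples of `b`. -/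
def T_FML : Prop :=
  ∀ b : ℕ, 0 < b → {M : La k | Mb b M}.Finite

/-- (FZC) the twisted sums with complex parameters are holomorphic. -/
def T_FZC : Prop :=
  ∀ B : ℝ, 1 ≤ B → ∃ K : ℝ, 1 ≤ K ∧ ∀ (b : ℕ) (r A : ℝ) (M : La k) (s : ℂ)
    (α : Ideal (𝓞 k) → ℂ) (I : Ideal (𝓞 k)) (L : La k) (X Y : ℂ → Pl k → ℂ) (ζ : ℂ),
    0 < b → Mb b M → 0 < r → I ∈ Sq b A → L ∈ Ls I → |s.re - 1 / 2| ≤ 1 / 8 →
    (∀ v, Differentiable ℂ (fun w => X w v)) →
    (∀ v, Differentiable ℂ (fun w => Y w v)) → Rg B K r s.im (X ζ) (Y ζ) →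
    DifferentiableAt ℂ (fun w => cf s α b A M I L (X w) (Y w)) ζ

end Pool.Agent.H89.CM4
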