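import Pool.Agent.H89.CM4.Targets2b

/-!
# The twisted second moment over a cell (row CEL)
-/

set_option autoImplicit false
set_option linter.unusedVariables false

open MeasureTheory Set Filter NumberField NumberField.InfinitePlace
open scoped Real

namespace Pool.Agent.H89.CM4

open Pool.Agent.H65.CM4

variable (k : Type) [Field k] [NumberField k] [IsTotallyReal k]

omit [IsTotallyReal k] in
theorem Rg_mono {k : Type} [Field k] [NumberField k] {B K K' r t : ℝ} {x y : Pl k → ℂ}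
    (hK : K ≤ K') (h : Rg B K' r t x y) : Rg B K r t x y := by
  intro v
  obtain ⟨h1, h2, h3, h4, h5⟩ := h v
  have hT : 0 ≤ 1 + |t| := by positivity
  refine ⟨h1, h2, h3, lt_of_le_of_lt ?_ h4, lt_of_le_of_lt ?_ h5⟩
  · exact mul_le_mul_of_nonneg_right (mul_le_mul_of_nonneg_right hK hT) (abs_nonneg _)
  · exact mul_le_mul_of_nonneg_right (mul_le_mul_of_nonneg_right hK hT) (abs_nonneg _)

theorem Rg_of_ball {k : Type} [Field k] [NumberField k] {B K₀ r t : ℝ} {c₁ c₂ : Pl k → ℝ}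
    {z w : Pl k → ℂ} (hB : 1 ≤ B) (hK : 1 ≤ K₀) (hr : 1 ≤ r)
    (hc : ∀ v, |c₁ v| ≤ B * r ∧ r / B ≤ c₂ v ∧ c₂ v ≤ B * r)
    (hz : ∀ v, ‖z v - (c₁ v : ℂ)‖ ≤ 2 * (r / (32 * B * K₀ * (1 + |t|))))
    (hw : ∀ v, ‖w v - (c₂ v : ℂ)‖ ≤ 2 * (r / (32 * B * K₀ * (1 + |t|)))) :
    Rg (4 * B) K₀ r t z w := by
  intro v
  have hT : 1 ≤ 1 + |t| := by linarith [abs_nonneg t]
  have hT0 : 0 < 1 + |t| := by linarith
  have hB0 : 0 < B := by linarith
  have hK0 : 0 < K₀ := by linarith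
  have hr0 : 0 < r := by linarith
  have hR : 2 * (r / (32 * B * K₀ * (1 + |t|))) * (16 * B * K₀ * (1 + |t|)) = r := by
    field_simp
    norm_num
  obtain ⟨h1, h2, h3⟩ := hc v
  have hz := hz v
  have hw := hw v
  set R := 2 * (r / (32 * B * K₀ * (1 + |t|))) with hRdef
  have hR0 : 0 ≤ R := by positivity
  have hzr := (Complex.abs_re_le_norm (z v - c₁ v)).trans hz
  have hzi := (Complex.abs_im_le_norm (z v - c₁ v)).trans hz
  have hwr := (Complex.abs_re_le_norm (w v - c₂ v)).trans hw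
  have hwi := (Complex.abs_im_le_norm (w v - c₂ v)).trans hw
  simp only [Complex.sub_re, Complex.sub_im, Complex.ofReal_re, Complex.ofReal_im,
    sub_zero] at hzr hzi hwr hwi
  obtain ⟨a1, a2⟩ := abs_le.1 hzr
  obtain ⟨b1, b2⟩ := abs_le.1 hwr
  obtain ⟨d1, d2⟩ := abs_le.1 h1
  have hKT : 1 ≤ K₀ * (1 + |t|) := by nlinarith
  have hRB : R * (16 * B) ≤ r := by
    have h4 : R * (16 * B) ≤ R * (16 * B) * (K₀ * (1 + |t|)) :=
      le_mul_of_one_le_right (by positivity) hKT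
    calc R * (16 * B) ≤ R * (16 * B) * (K₀ * (1 + |t|)) := h4
      _ = R * (16 * B * K₀ * (1 + |t|)) := by ring
      _ = r := hR
  have hRr : 16 * R ≤ r := by nlinarith
  have hBr : r ≤ B * r := le_mul_of_one_le_left hr0.le hB
  have hRK : R * (16 * (K₀ * (1 + |t|))) ≤ r := by
    have h4 : R * (16 * (K₀ * (1 + |t|))) ≤ R * (16 * (K₀ * (1 + |t|))) * B :=
      le_mul_of_one_le_right (by positivity) hB
    calc R * (16 * (K₀ * (1 + |t|))) ≤ R * (16 * (K₀ * (1 + |t|))) * B := h4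
      _ = R * (16 * B * K₀ * (1 + |t|)) := by ring
      _ = r := hR
  have hrB : R * 16 ≤ r / B := by
    rw [le_div_iff₀ hB0]
    linarith
  have hrB0 : 0 < r / B := by positivity
  refine ⟨?_, ?_, by nlinarith, ?_, ?_⟩
  · rw [abs_lt]
    constructor <;> nlinarith
  · have h4 : r / (4 * B) = r / B / 4 := by
      field_simp
    rw [h4]
    linarith
  · have h4 : K₀ * (1 + |t|) * |(z v).im| ≤ K₀ * (1 + |t|) * R :=
      mul_le_mul_of_nonneg_left hzi (by positivity)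
    nlinarith
  · have h4 : K₀ * (1 + |t|) * |(w v).im| ≤ K₀ * (1 + |t|) * R :=
      mul_le_mul_of_nonneg_left hwi (by positivity)
    nlinarith

theorem comp_diff {p : Type} [DecidableEq p] (w : p → ℂ) (v u : p) :
    Differentiable ℂ (fun ζ : ℂ => Function.update w v ζ u) := by
  by_cases h : u = v
  · subst h
    simp only [Function.update_self]
    exact differentiable_id
  · simp only [Function.update_of_ne h]
    exact differentiable_const _

theorem pow_bound2 {B y r A κ δ ε : ℝ} {n : ℕ} (hn : 1 ≤ n) (hB : 1 ≤ B) (hy : 1 ≤ y) (hr : 1 ≤ r)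
    (hry : r ≤ B * y) (hA : 1 ≤ A) (hδ : δ ≤ 1) (hAy : A ≤ y ^ (n * (1 + δ))) (hκ : 0 < κ)
    (hκ1 : κ ≤ 1 / 32) (hκε : κ ≤ ε / 100) (hε : 0 < ε) :
    (A * r ^ n) ^ (16 * κ) ≤ B ^ n * y ^ (n * (ε / 2)) := by
  have hy0 : 0 < y := by linarith
  have hB0 : 0 < B := by linarith
  have hnR : (1 : ℝ) ≤ n := by exact_mod_cast hn
  have h1 : A ≤ y ^ (2 * (n : ℝ)) := by
    refine hAy.trans (Real.rpow_le_rpow_of_exponent_le hy ?_)
    nlinarith
  have h2 : r ^ n ≤ B ^ n * y ^ (n : ℝ) := by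
    calc r ^ n ≤ (B * y) ^ n := by gcongr
      _ = B ^ n * y ^ (n : ℝ) := by rw [mul_pow, Real.rpow_natCast]
  have h3 : A * r ^ n ≤ B ^ n * y ^ (3 * (n : ℝ)) := by
    calc A * r ^ n ≤ y ^ (2 * (n : ℝ)) * (B ^ n * y ^ (n : ℝ)) := by gcongr
      _ = B ^ n * (y ^ (2 * (n : ℝ)) * y ^ (n : ℝ)) := by ring
      _ = B ^ n * y ^ (3 * (n : ℝ)) := by
          rw [← Real.rpow_add hy0]
          congr 2
          ring
  have hBn : (1 : ℝ) ≤ B ^ n := one_le_pow₀ hB
  have h16 : 16 * κ ≤ 1 := by linarith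
  calc (A * r ^ n) ^ (16 * κ) ≤ (B ^ n * y ^ (3 * (n : ℝ))) ^ (16 * κ) := by
        apply Real.rpow_le_rpow (by positivity) h3 (by positivity)
    _ = (B ^ n) ^ (16 * κ) * (y ^ (3 * (n : ℝ))) ^ (16 * κ) := by
        rw [Real.mul_rpow (by positivity) (by positivity)]
    _ ≤ B ^ n * y ^ (n * (ε / 2)) := by
        apply mul_le_mul
        · calc (B ^ n) ^ (16 * κ) ≤ (B ^ n) ^ (1 : ℝ) :=
                Real.rpow_le_rpow_of_exponent_le hBn h16
            _ = B ^ n := Real.rpow_one _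
        · rw [← Real.rpow_mul hy0.le]
          apply Real.rpow_le_rpow_of_exponent_le hy
          nlinarith
        · positivity
        · positivity

theorem pf_CEL (hCAS : T_CAS) (hFZC : T_FZC k) (hCFB : T_CFB k) (hEXP : T_EXP k) (hLS : T_LS k)
    (hEMB : T_EMB k) : T_CEL k := by
  classical
  intro R b B hAdm hB ε hε
  have hn : 1 ≤ dg k := hEMB.2.1
  obtain ⟨d0, hd0, hLS⟩ := hLS R B B hB hB (ε / 2) (by linarith)
  set δ := min d0 (min (1 / 8) ε) with hδdef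
  have hδ0 : 0 < δ := lt_min hd0 (lt_min (by norm_num) hε)
  have hδ1 : δ ≤ d0 := min_le_left _ _
  have hδ2 : δ ≤ 1 / 8 := (min_le_right _ _).trans (min_le_left _ _)
  have hδ3 : δ ≤ ε := (min_le_right _ _).trans (min_le_right _ _)
  set κ := min (1 / 32) (ε / 100) with hκdef
  have hκ0 : 0 < κ := lt_min (by norm_num) (by linarith)
  have hκ1 : κ ≤ 1 / 32 := min_le_left _ _
  have hκ2 : κ ≤ ε / 100 := min_le_right _ _
  have h4B : 1 ≤ 4 * B := by linarith
  have hB0 : 0 < B := by linarith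
  obtain ⟨CL, hCL0, hLS⟩ := hLS δ hδ0 hδ1
  obtain ⟨K1, hK1, hCFB⟩ := hCFB (4 * B) h4B
  obtain ⟨K2, hK2, hFZC⟩ := hFZC (4 * B) h4B
  obtain ⟨CB, j, hCB0, hCFB⟩ := hCFB b κ hAdm.1 hκ0 hκ1
  set K₀ := max K1 K2 with hK₀
  have hK₀1 : 1 ≤ K₀ := hK1.trans (le_max_left _ _)
  have hK₀0 : 0 < K₀ := by linarith
  set N := Fintype.card (Pl k ⊕ Pl k) with hN
  refine ⟨κ, hκ0, hκ1, δ, hδ0, hδ2, hδ3, 32 * B * K₀, 4 ^ N * CL * CB * B ^ dg k, j,
    by nlinarith, by positivity, ?_⟩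
  intro s y r A c₁ c₂ P α M S hs hy hr hry hA hAy hα hP hM hc hS
  have hy0 : 0 < y := by linarith
  have hr0 : 0 < r := by linarith
  have hs1 : |s.re - 1 / 2| ≤ 1 / 8 := hs.trans (by linarith)
  obtain ⟨hs2, hs3⟩ := abs_le.1 hs1
  have hT0 : 0 < 1 + |s.im| := by linarith [abs_nonneg s.im]
  set f : QF k → (Pl k ⊕ Pl k → ℂ) → ℂ := fun Q w =>
    ∑ I ∈ Sq b A, ∑ L ∈ Ls I, cf s α b A M I L (fun v => w (Sum.inl v))
      (fun v => w (Sum.inr v)) * (Rn I L Q : ℂ) with hf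
  set a : Pl k ⊕ Pl k → ℂ := Sum.elim (fun v => (c₁ v : ℂ)) (fun v => (c₂ v : ℂ)) with ha
  set z : QF k → Pl k ⊕ Pl k → ℂ := fun Q => Sum.elim (fun v => (zx Q v : ℂ))
    (fun v => (zy Q v : ℂ)) with hz
  have hBF : ∀ Q ∈ S, Bf s α b A M Q = f Q (z Q) := by
    intro Q hQ
    rw [hEXP b M s α A Q hAdm.1 hM (by linarith) (by linarith) hA (hS Q hQ).1]
    rfl
  set R₀ : ℝ := r / (32 * B * K₀ * (1 + |s.im|)) with hR₀
  have hR₀0 : 0 < R₀ := by positivity
  have hball : ∀ w : Pl k ⊕ Pl k → ℂ, (∀ v, ‖w v - a v‖ ≤ 2 * R₀) →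
      Rg (4 * B) K₀ r s.im (fun v => w (Sum.inl v)) (fun v => w (Sum.inr v)) := by
    intro w hw
    exact Rg_of_ball hB hK₀1 hr hc (fun v => hw (Sum.inl v)) (fun v => hw (Sum.inr v))
  have hht : 0 ≤ ht k j s.im := by
    unfold ht
    positivity
  set Mc : ℝ := CB * ht k j s.im ^ 2 * A * (B ^ dg k * y ^ (dg k * (ε / 2))) with hMc
  have hMc0 : 0 ≤ Mc := by positivity
  have key := hCAS (QF k) (Pl k ⊕ Pl k) S f a R₀ (CL * y ^ (dg k * (3 + ε / 2)) * r ^ dg k * Mc) z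
    hR₀0
    (by
      intro Q hQ w hw v
      have hRg := Rg_mono (le_max_right K1 K2) (hball w hw)
      have e1 : (fun u : Pl k => Function.update w v (w v) (Sum.inl u)) =
        fun u => w (Sum.inl u) := by rw [Function.update_eq_self]
      have e2 : (fun u : Pl k => Function.update w v (w v) (Sum.inr u)) =
        fun u => w (Sum.inr u) := by rw [Function.update_eq_self]
      rw [← e1, ← e2] at hRg
      refine DifferentiableAt.fun_sum fun I hI => DifferentiableAt.fun_sum fun L hL =>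
        DifferentiableAt.mul_const ?_ _
      exact hFZC b r A M s α I L
        (fun ζ u => Function.update w v ζ (Sum.inl u)) (fun ζ u => Function.update w v ζ (Sum.inr u))
        (w v) hAdm.1 hM hr0 hI hL hs1 (fun u => comp_diff w v (Sum.inl u))
        (fun u => comp_diff w v (Sum.inr u)) hRg)
    (by
      intro Q hQ v
      obtain ⟨-, -, h3⟩ := hS Q hQ
      rcases v with v | v
      · have h4 := (h3 v).1
        change ‖(zx Q v : ℂ) - (c₁ v : ℂ)‖ ≤ R₀
        rw [← Complex.ofReal_sub, Complex.norm_real, Real.norm_eq_abs, hR₀,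
          le_div_iff₀ (by positivity)]
        linarith
      · have h4 := (h3 v).2
        change ‖(zy Q v : ℂ) - (c₂ v : ℂ)‖ ≤ R₀
        rw [← Complex.ofReal_sub, Complex.norm_real, Real.norm_eq_abs, hR₀,
          le_div_iff₀ (by positivity)]
        linarith)
    (by
      intro w hw
      have hRg := Rg_mono (le_max_left K1 K2) (hball w (fun v => (hw v).le))
      exact hLS b y r A Mc P S (fun I L => cf s α b A M I L (fun v => w (Sum.inl v))
        (fun v => w (Sum.inr v))) hAdm hy hr hry hA hAy hMc0 hP (fun Q hQ => (hS Q hQ).2.1) (by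
          intro I hI L hL
          refine (hCFB M s α A r I L _ _ hM hs hα hA hr hI hL hRg).trans ?_
          have hp := pow_bound2 hn hB hy hr hry hA (by linarith) hAy hκ0 hκ1 hκ2 hε
          rw [hMc]
          gcongr))
  have hsum : ∑ Q ∈ S, ‖Bf s α b A M Q‖ ^ 2 = ∑ Q ∈ S, ‖f Q (z Q)‖ ^ 2 :=
    Finset.sum_congr rfl fun Q hQ => by rw [hBF Q hQ]
  rw [hsum]
  refine key.trans (le_of_eq ?_)
  have hyp : y ^ (dg k * (3 + ε / 2)) * y ^ (dg k * (ε / 2)) = y ^ (dg k * (3 + ε)) := by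
    rw [← Real.rpow_add hy0]
    congr 1
    ring
  rw [hMc, ← hyp]
  ring

end Pool.Agent.H89.CM4
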