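import Pool.Agent.H89.CM4.Targets2b

/-!
# The dual lattice (row DUL)
-/

set_option autoImplicit false
set_option linter.unusedVariables false

open MeasureTheory Set Filter NumberField NumberField.InfinitePlace
open scoped Real

namespace Pool.Agent.H89.CM4

open Pool.Agent.H65.CM4

section base

variable {k : Type} [Field k] [NumberField k]

open Classical in
/-- the codifferent is contained in the multiples of the integers by the inverse of the
discriminant -/
theorem cod {y : k} (h : ∀ a : 𝓞 k, ∃ n : ℤ, Algebra.trace ℚ k (y * a) = n) :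
    ∃ z : 𝓞 k, (z : k) = (dk k : k) * y := by
  set b := RingOfIntegers.basis k with hb
  set B := integralBasis k with hB
  have hBb : ∀ i, B i = ((b i : 𝓞 k) : k) := fun i => integralBasis_apply k i
  choose n hn using h
  set T : Matrix (Module.Free.ChooseBasisIndex ℤ (𝓞 k)) (Module.Free.ChooseBasisIndex ℤ (𝓞 k)) ℤ :=
    Matrix.of fun i j => Algebra.trace ℤ (𝓞 k) (b i * b j) with hT
  have hTM : (Int.castRingHom ℚ).mapMatrix T = Algebra.traceMatrix ℚ B := by
    ext i j
    simp only [RingHom.mapMatrix_apply, Matrix.map_apply, hT, Matrix.of_apply,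
      Algebra.traceMatrix_apply, Algebra.traceForm_apply, hBb]
    have h0 := Algebra.coe_trace_int (K := k) (b i * b j)
    simp only [map_mul] at h0
    exact h0
  have h1 := Algebra.traceMatrix_of_basis_mulVec B y
  have h2 : (Algebra.traceMatrix ℚ B).det • B.equivFun y =
      Matrix.mulVec (Algebra.traceMatrix ℚ B).adjugate (fun i => Algebra.trace ℚ k (y * B i)) := by
    rw [← h1, Matrix.mulVec_mulVec, Matrix.adjugate_mul, Matrix.smul_mulVec, Matrix.one_mulVec]
  have h3 : (Algebra.traceMatrix ℚ B).adjugate = (Int.castRingHom ℚ).mapMatrix T.adjugate := by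
    rw [← hTM, RingHom.map_adjugate]
  have h4 : (Algebra.traceMatrix ℚ B).det = (discr k : ℚ) := by
    rw [NumberField.coe_discr]
    rfl
  have h5 : ((discr k : ℤ) : k) * y =
      ((∑ i, (∑ j, T.adjugate i j * n (b j)) • b i : 𝓞 k) : k) := by
    have h6 : ((discr k : ℤ) : k) * y = ∑ i, ((discr k : ℚ) • B.equivFun y) i • B i := by
      have h7 : ((discr k : ℤ) : k) * y = ((discr k : ℤ) : ℚ) • y := by
        rw [Algebra.smul_def]
        simp
      rw [h7]
      conv_lhs => rw [← B.sum_equivFun y, Finset.smul_sum]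
      refine Finset.sum_congr rfl fun i _ => ?_
      rw [Pi.smul_apply, smul_assoc]
    rw [h6, ← h4, h2, h3]
    simp only [map_sum]
    refine Finset.sum_congr rfl fun i _ => ?_
    have h8 : Matrix.mulVec ((Int.castRingHom ℚ).mapMatrix T.adjugate)
        (fun i => Algebra.trace ℚ k (y * B i)) i = ((∑ j, T.adjugate i j * n (b j) : ℤ) : ℚ) := by
      rw [Matrix.mulVec, dotProduct, Int.cast_sum]
      refine Finset.sum_congr rfl fun j _ => ?_
      rw [RingHom.mapMatrix_apply, Matrix.map_apply, hBb, hn, Int.cast_mul]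
      rfl
    rw [h8, hBb, zsmul_eq_mul, Algebra.smul_def]
    simp only [map_mul, map_intCast]
  rcases Int.natAbs_eq (discr k) with h | h
  · refine ⟨∑ i, (∑ j, T.adjugate i j * n (b j)) • b i, ?_⟩
    rw [← h5]
    have h9 : ((discr k : ℤ) : k) = (dk k : k) := by
      rw [h]
      simp [dk]
    rw [h9]
  · refine ⟨-∑ i, (∑ j, T.adjugate i j * n (b j)) • b i, ?_⟩
    have h10 : ((-∑ i, (∑ j, T.adjugate i j * n (b j)) • b i : 𝓞 k) : k) =
        -((∑ i, (∑ j, T.adjugate i j * n (b j)) • b i : 𝓞 k) : k) := rfl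
    rw [h10, ← h5]
    have h9 : ((discr k : ℤ) : k) = -(dk k : k) := by
      rw [h]
      simp [dk]
    rw [h9]
    ring

theorem cramer (u v v' : V2 k) : det v v' • u = det u v' • v + det v u • v' := by
  refine Prod.ext ?_ ?_
  · simp only [det, Prod.smul_fst, Prod.fst_add, smul_eq_mul]
    ring
  · simp only [det, Prod.smul_snd, Prod.snd_add, smul_eq_mul]
    ring

theorem det_smul_right (c : 𝓞 k) (u v : V2 k) : det u (c • v) = c * det u v := by
  simp only [det, Prod.smul_fst, Prod.smul_snd, smul_eq_mul]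
  ring

theorem det_smul_left (c : 𝓞 k) (u v : V2 k) : det (c • u) v = c * det u v := by
  simp only [det, Prod.smul_fst, Prod.smul_snd, smul_eq_mul]
  ring

/-- a lattice containing the multiples of a positive integer has finite index -/
theorem ix_ne_zero {M : La k} {b : ℕ} (hb : 0 < b) (h : ∀ u : V2 k, (b : 𝓞 k) • u ∈ M) :
    ix M ≠ 0 := by
  have h1 : Module.IsTorsion ℤ (V2 k ⧸ M.toAddSubgroup) := by
    intro x
    refine ⟨⟨(b : ℤ), ?_⟩, ?_⟩
    · rw [mem_nonZeroDivisors_iff_ne_zero]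
      exact_mod_cast hb.ne'
    · obtain ⟨u, rfl⟩ := QuotientAddGroup.mk_surjective x
      have h2 : (b : ℤ) • (u : V2 k ⧸ M.toAddSubgroup) =
          (((b : ℤ) • u : V2 k) : V2 k ⧸ M.toAddSubgroup) := rfl
      change (b : ℤ) • (u : V2 k ⧸ M.toAddSubgroup) = 0
      rw [h2, QuotientAddGroup.eq_zero_iff]
      have h3 : ((b : ℤ) • u : V2 k) = (b : 𝓞 k) • u := by
        rw [natCast_zsmul, Nat.cast_smul_eq_nsmul]
      rw [h3]
      exact h u
  have h2 : Module.Finite ℤ (V2 k ⧸ M.toAddSubgroup) :=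
    Module.Finite.of_surjective (QuotientAddGroup.mk' M.toAddSubgroup).toIntLinearMap
      (QuotientAddGroup.mk'_surjective _)
  have h3 : Finite (V2 k ⧸ M.toAddSubgroup) := Module.finite_of_fg_torsion _ h1
  exact AddSubgroup.index_ne_zero_of_finite

theorem du_det {M : La k} (hd : 0 < dk k) (hM : ix M ≠ 0) {u v : V2 k} (hu : u ∈ du M)
    (hv : v ∈ M) : ∃ x : 𝓞 k, det u v = (ix M : 𝓞 k) * x := by
  set m := ix M with hm
  have hmk : (m : k) ≠ 0 := by exact_mod_cast hM
  have hdk : (dk k : k) ≠ 0 := by exact_mod_cast hd.ne'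
  obtain ⟨x, hx⟩ := cod (y := ((det u v : 𝓞 k) : k) / ((dk k * m : ℕ) : k)) (by
    intro a
    have h1 : a • v ∈ M := M.smul_mem a hv
    obtain ⟨n, hn⟩ := hu (a • v) h1
    refine ⟨n, ?_⟩
    rw [det_smul_right] at hn
    have h2 : ((det u v : 𝓞 k) : k) / ((dk k * m : ℕ) : k) * (a : k) =
        (((dk k * m : ℕ) : ℚ)⁻¹) • ((a * det u v : 𝓞 k) : k) := by
      rw [Algebra.smul_def]
      simp only [map_mul, map_inv₀, map_natCast]
      field_simp
    rw [h2, map_smul, ← Algebra.coe_trace_int, hn, smul_eq_mul]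
    have h3 : ((dk k * m : ℕ) : ℚ) ≠ 0 := by
      exact_mod_cast (Nat.mul_ne_zero hd.ne' hM)
    push_cast at h3 ⊢
    rw [← hm]
    field_simp)
  refine ⟨x, ?_⟩
  apply RingOfIntegers.coe_injective
  change ((det u v : 𝓞 k) : k) = (((m : 𝓞 k) * x : 𝓞 k) : k)
  have h1 : (((m : 𝓞 k) * x : 𝓞 k) : k) = (m : k) * (x : k) := by
    simp only [map_mul, map_natCast]
  rw [h1, hx]
  push_cast
  field_simp

/-- the ideal of the determinants -/
def dj (M : La k) : Ideal (𝓞 k) := Ideal.span {a | ∃ v ∈ M, ∃ v' ∈ M, a = det v v'}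

theorem dj_smul {M : La k} (hd : 0 < dk k) (hM : ix M ≠ 0) {u : V2 k} (hu : u ∈ du M)
    {a : 𝓞 k} (ha : a ∈ dj M) : ∃ w ∈ M, a • u = (ix M : 𝓞 k) • w := by
  unfold dj at ha
  induction ha using Submodule.span_induction with
  | mem a h =>
    obtain ⟨v, hv, v', hv', rfl⟩ := h
    obtain ⟨x, hx⟩ := du_det hd hM hu hv'
    obtain ⟨x', hx'⟩ := du_det hd hM hu hv
    refine ⟨x • v - x' • v', M.sub_mem (M.smul_mem _ hv) (M.smul_mem _ hv'), ?_⟩
    have h1 : det v u = -((ix M : 𝓞 k) * x') := by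
      rw [← hx']
      simp only [det]
      ring
    rw [cramer, hx, h1, smul_sub, smul_smul, smul_smul, neg_smul, sub_eq_add_neg]
  | zero => exact ⟨0, M.zero_mem, by simp⟩
  | add a a' _ _ h h' =>
    obtain ⟨w, hw, h1⟩ := h
    obtain ⟨w', hw', h2⟩ := h'
    exact ⟨w + w', M.add_mem hw hw', by rw [add_smul, h1, h2, smul_add]⟩
  | smul c a _ h =>
    obtain ⟨w, hw, h1⟩ := h
    refine ⟨c • w, M.smul_mem c hw, ?_⟩
    rw [smul_eq_mul, mul_smul, h1, smul_comm]

end base

variable (k : Type) [Field k] [NumberField k] [IsTotallyReal k]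

theorem nn_smul {k : Type} [Field k] [NumberField k] [IsTotallyReal k] (r : ℝ) (a : 𝓞 k)
    (u : V2 k) : nn r (a • u) = Nr (a : k) ^ 2 * nn r u := by
  unfold nn Nr nr
  rw [← Finset.prod_pow, ← Finset.prod_mul_distrib]
  refine Finset.prod_congr rfl fun v _ => ?_
  simp only [Prod.smul_fst, Prod.smul_snd, smul_eq_mul, map_mul, sq_abs]
  ring

theorem Nr_nat {k : Type} [Field k] [NumberField k] [IsTotallyReal k]
    (hc : Fintype.card (Pl k) = dg k) (m : ℕ) : Nr ((m : 𝓞 k) : k) = (m : ℝ) ^ dg k := by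
  unfold Nr
  simp only [map_natCast, Nat.abs_cast, Finset.prod_const, Finset.card_univ, hc]

theorem pf_DUL (hEMB : T_EMB k) (hMKI : T_MKI k) (hBIX : T_BIX k) (hMIN : T_MIN k) :
    T_DUL k := by
  obtain ⟨hcard, hdg, hdk, -, -, hNmul, hN0, -, -, -, hNI, hden⟩ := hEMB
  obtain ⟨-, C, hC, hBIX⟩ := hBIX
  obtain ⟨C', hC', hMKI⟩ := hMKI
  obtain ⟨C'', hC'', hMIN⟩ := hMIN
  have hdk1 : (1 : ℝ) ≤ dk k := by exact_mod_cast hdk
  have hdkn : (1 : ℝ) ≤ (dk k : ℝ) ^ (2 * dg k) := one_le_pow₀ hdk1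
  have hCC : 1 ≤ C' * C := by nlinarith
  refine ⟨(dk k : ℝ) ^ (2 * dg k) * (C' * C) ^ 2, ?_, ?_⟩
  · have : 1 ≤ (C' * C) ^ 2 := one_le_pow₀ hCC
    nlinarith
  intro M hM
  have hMpos : 0 < ix M := Nat.pos_of_ne_zero hM
  have hm1 : (1 : ℝ) ≤ ix M := by exact_mod_cast hMpos
  have hm0 : (0 : ℝ) < ix M := by linarith
  obtain ⟨u₀, hu₀, v₀, hv₀, hne, hNr⟩ := hBIX M hM
  have hJ0 : dj M ≠ ⊥ := by
    intro h
    have h1 : det u₀ v₀ ∈ dj M := Ideal.subset_span ⟨u₀, hu₀, v₀, hv₀, rfl⟩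
    rw [h, Ideal.mem_bot] at h1
    exact hne h1
  have hJn : nm (dj M) ≤ C * ix M :=
    ((hNI (dj M) hJ0).2 _ (Ideal.subset_span ⟨u₀, hu₀, v₀, hv₀, rfl⟩) hne).trans hNr
  have hfin : ix (du M) ≠ 0 := by
    refine ix_ne_zero (b := dk k * ix M) (Nat.mul_pos hdk hMpos) ?_
    intro u v hv
    rw [det_smul_left]
    refine ⟨Algebra.trace ℤ (𝓞 k) (det u v), ?_⟩
    have h1 : ((dk k * ix M : ℕ) : 𝓞 k) * det u v = ((dk k * ix M : ℕ) : ℤ) • det u v := by
      rw [zsmul_eq_mul]
      push_cast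
      rfl
    rw [h1, map_zsmul, smul_eq_mul]
  refine ⟨hfin, ?_, ?_⟩
  · intro r hr u hu hu0
    obtain ⟨a, ha, ha0, haN⟩ := hMKI (dj M) hJ0
    obtain ⟨w, hw, hwe⟩ := dj_smul hdk hM hu ha
    obtain ⟨-, -, -, -, hmin, -⟩ := hMIN r M hr hM
    have hw0 : w ≠ 0 := by
      rintro rfl
      rw [smul_zero] at hwe
      rcases smul_eq_zero.1 hwe with h | h
      · exact ha0 h
      · exact hu0 h
    have h1 := hmin w hw hw0
    have h2 : Nr (a : k) ^ 2 * nn r u = ((ix M : ℝ) ^ dg k) ^ 2 * nn r w := by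
      rw [← nn_smul, hwe, nn_smul, Nr_nat hcard]
    have h3 : Nr (a : k) ≤ C' * C * ix M := by
      calc Nr (a : k) ≤ C' * nm (dj M) := haN
        _ ≤ C' * (C * ix M) := by gcongr
        _ = _ := by ring
    have h4 : 0 ≤ Nr (a : k) := (hN0 _).1
    have h5 : 0 ≤ nn r u := by
      unfold nn nr
      exact Finset.prod_nonneg fun v _ => by positivity
    calc mn r M * ((dk k * ix M : ℕ) : ℝ) ^ (2 * dg k) =
        (dk k : ℝ) ^ (2 * dg k) * (((ix M : ℝ) ^ dg k) ^ 2 * mn r M) := by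
          push_cast
          rw [mul_pow, ← pow_mul (ix M : ℝ), mul_comm (dg k) 2]
          ring
      _ ≤ (dk k : ℝ) ^ (2 * dg k) * (((ix M : ℝ) ^ dg k) ^ 2 * nn r w) := by gcongr
      _ = (dk k : ℝ) ^ (2 * dg k) * (Nr (a : k) ^ 2 * nn r u) := by rw [h2]
      _ ≤ (dk k : ℝ) ^ (2 * dg k) * ((C' * C * ix M) ^ 2 * nn r u) := by gcongr
      _ = _ := by ring
  · intro u hu v hv huv
    set m := ix M with hm
    have hmk : (m : k) ≠ 0 := by exact_mod_cast hM
    set y : k := ((det u v : 𝓞 k) : k) / (m : k) ^ 2 with hy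
    have huvk : ((det u v : 𝓞 k) : k) ≠ 0 := by
      intro h
      exact huv (RingOfIntegers.coe_injective (h.trans (map_zero _).symm))
    have hy0 : y ≠ 0 := div_ne_zero huvk (pow_ne_zero 2 hmk)
    have hJden : dj M ≤ den y := by
      intro a ha
      obtain ⟨w, hw, hwe⟩ := dj_smul hdk hM hu ha
      have hint : IsIntegral (𝓞 k) ((a : k) * y) := by
        refine isIntegral_of_smul_mem_submodule
          (Submodule.map (Algebra.linearMap (𝓞 k) k) (dj M)) ?_ ?_ _ ?_
        · intro h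
          apply hJ0
          rw [eq_bot_iff]
          intro x hx
          have h1 : Algebra.linearMap (𝓞 k) k x ∈
              Submodule.map (Algebra.linearMap (𝓞 k) k) (dj M) := ⟨x, hx, rfl⟩
          rw [h, Submodule.mem_bot] at h1
          rw [Submodule.mem_bot]
          exact RingOfIntegers.coe_injective (h1.trans (map_zero _).symm)
        · exact Submodule.FG.map _ (IsNoetherian.noetherian (dj M))
        · intro x hx
          rw [Submodule.mem_map] at hx ⊢
          obtain ⟨a', ha', rfl⟩ := hx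
          obtain ⟨w', hw', hwe'⟩ := dj_smul hdk hM hv ha'
          refine ⟨det w w', Ideal.subset_span ⟨w, hw, w', hw', rfl⟩, ?_⟩
          have h1 : a * (a' * det u v) = (m : 𝓞 k) * ((m : 𝓞 k) * det w w') := by
            rw [← det_smul_right, ← det_smul_left, hwe, hwe', det_smul_left, det_smul_right]
          have h2 := congrArg (algebraMap (𝓞 k) k) h1
          simp only [map_mul, map_natCast] at h2
          rw [Algebra.linearMap_apply, Algebra.linearMap_apply, smul_eq_mul, hy]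
          field_simp
          linear_combination -h2
      obtain ⟨z, hz⟩ := IsIntegrallyClosed.isIntegral_iff.1 hint
      exact ⟨z, hz⟩
    have hdn : nm (den y) ≤ nm (dj M) := by
      unfold nm
      have h1 := Ideal.absNorm_dvd_absNorm_of_le hJden
      have h2 : 0 < Ideal.absNorm (dj M) := by
        rw [Nat.pos_iff_ne_zero, Ne, Ideal.absNorm_eq_zero_iff]
        exact hJ0
      exact_mod_cast Nat.le_of_dvd h2 h1
    have h1 : 1 ≤ Nr y * nm (den y) := (hden y 0).2.2 hy0
    have hy1 : 0 ≤ Nr y := (hN0 y).1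
    have h2 : Nr ((det u v : 𝓞 k) : k) = ((m : ℝ) ^ dg k) ^ 2 * Nr y := by
      have h3 : ((det u v : 𝓞 k) : k) = (((m : 𝓞 k) : k) * ((m : 𝓞 k) : k)) * y := by
        rw [hy]
        simp only [map_natCast]
        field_simp
      rw [h3, hNmul, hNmul, Nr_nat hcard]
      ring
    have h4 : 1 ≤ Nr y * (C * m) := by
      calc 1 ≤ Nr y * nm (den y) := h1
        _ ≤ Nr y * (C * m) := by gcongr; exact hdn.trans hJn
    calc ((dk k * m : ℕ) : ℝ) ^ (2 * dg k) =
        (dk k : ℝ) ^ (2 * dg k) * (((m : ℝ) ^ dg k) ^ 2 * 1) := by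
          push_cast
          rw [mul_pow, ← pow_mul (m : ℝ), mul_comm (dg k) 2]
          ring
      _ ≤ (dk k : ℝ) ^ (2 * dg k) * (((m : ℝ) ^ dg k) ^ 2 * (Nr y * (C * m))) := by gcongr
      _ = (dk k : ℝ) ^ (2 * dg k) * (1 * C) * m * Nr ((det u v : 𝓞 k) : k) := by
          rw [h2]
          ring
      _ ≤ (dk k : ℝ) ^ (2 * dg k) * (C' * C) ^ 2 * m * Nr ((det u v : 𝓞 k) : k) := by
          have h5 : 1 * C ≤ (C' * C) ^ 2 := by nlinarith
          have h6 : 0 ≤ Nr ((det u v : 𝓞 k) : k) := (hN0 _).1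
          gcongr

end Pool.Agent.H89.CM4
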