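import Pool.Agent.H89.CM4.Targets2b

/-!
# The index of the lattice of two vectors (rows IXF, MNL, BLV)
-/

set_option autoImplicit false
set_option linter.unusedVariables false

open MeasureTheory Set Filter NumberField NumberField.InfinitePlace
open scoped Real

namespace Pool.Agent.H89.CM4

open Pool.Agent.H65.CM4

variable (k : Type) [Field k] [NumberField k] [IsTotallyReal k]

theorem pf_IXF (hEMB : T_EMB k) : T_IXF k := by
  classical
  intro u v huv
  obtain ⟨-, -, -, hNorm, -⟩ := hEMB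
  set T : V2 k →ₗ[𝓞 k] V2 k :=
    (LinearMap.toSpanSingleton (𝓞 k) (V2 k) u).comp (LinearMap.fst (𝓞 k) (𝓞 k) (𝓞 k)) +
      (LinearMap.toSpanSingleton (𝓞 k) (V2 k) v).comp (LinearMap.snd (𝓞 k) (𝓞 k) (𝓞 k)) with hT
  have hTa : ∀ x : V2 k, T x = x.1 • u + x.2 • v := fun x => rfl
  have hdet : LinearMap.det T = det u v := by
    rw [← LinearMap.det_toMatrix (Module.Basis.finTwoProd (𝓞 k)), Matrix.det_fin_two]
    simp only [LinearMap.toMatrix_apply, Module.Basis.finTwoProd_zero,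
      Module.Basis.finTwoProd_one, Module.Basis.coe_finTwoProd_repr, hTa, Matrix.cons_val_zero,
      Matrix.cons_val_one, Prod.fst_add, Prod.snd_add, Prod.smul_fst, Prod.smul_snd, smul_eq_mul,
      one_mul, zero_mul, add_zero, zero_add, det]
    ring
  have hinj : Function.Injective T := by
    rw [← LinearMap.ker_eq_bot, LinearMap.ker_eq_bot']
    intro x hx
    rw [hTa] at hx
    have h1 := congrArg Prod.fst hx
    have h2 := congrArg Prod.snd hx
    simp only [Prod.fst_add, Prod.snd_add, Prod.smul_fst, Prod.smul_snd, smul_eq_mul,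
      Prod.fst_zero, Prod.snd_zero] at h1 h2
    have h3 : det u v * x.1 = 0 := by
      unfold det
      linear_combination v.2 * h1 - v.1 * h2
    have h4 : det u v * x.2 = 0 := by
      unfold det
      linear_combination u.1 * h2 - u.2 * h1
    exact Prod.ext ((mul_eq_zero.1 h3).resolve_left huv) ((mul_eq_zero.1 h4).resolve_left huv)
  have hrange : LinearMap.range T = Submodule.span (𝓞 k) ({u, v} : Set (V2 k)) := by
    ext w
    rw [LinearMap.mem_range, Submodule.mem_span_pair]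
    constructor
    · rintro ⟨x, rfl⟩
      exact ⟨x.1, x.2, (hTa x).symm⟩
    · rintro ⟨a, b, rfl⟩
      exact ⟨(a, b), hTa _⟩
  set TZ : V2 k →ₗ[ℤ] V2 k := T.restrictScalars ℤ with hTZ
  have hinjZ : Function.Injective TZ := hinj
  have h1 := Submodule.natAbs_det_equiv (LinearMap.range TZ) (LinearEquiv.ofInjective TZ hinjZ)
  have h2 : (LinearMap.range TZ).subtype ∘ₗ AddMonoidHom.toIntLinearMap
      ((LinearEquiv.ofInjective TZ hinjZ : V2 k ≃ₗ[ℤ] LinearMap.range TZ) :
        V2 k →+ LinearMap.range TZ) = TZ := by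
    ext x <;> rfl
  rw [h2, hTZ, LinearMap.det_restrictScalars, hdet] at h1
  have h3 : ix (Submodule.span (𝓞 k) ({u, v} : Set (V2 k))) =
      (Algebra.norm ℤ (det u v)).natAbs := by
    rw [h1, ← hrange]
    rfl
  rw [h3, hNorm, ← Algebra.coe_norm_int]
  push_cast
  rw [Nat.cast_natAbs]
  push_cast
  rfl

theorem pf_MNL (hEMB : T_EMB k) (hMIN : T_MIN k) : T_MNL k := by
  obtain ⟨hcard, hdg, -, -, -, -, -, -, -, hge, -, -⟩ := hEMB
  obtain ⟨C, hC, hMIN⟩ := hMIN
  intro r M hr hM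
  have hr0 : 0 < r := by linarith
  obtain ⟨u, hu, hu0, hnn, -, -⟩ := hMIN r M hr0 hM
  rw [← hnn]
  have hrn : 1 ≤ r ^ dg k := one_le_pow₀ hr
  by_cases h : u.2 = 0
  · have h1 : u.1 ≠ 0 := fun h1 => hu0 (Prod.ext h1 h)
    have h2 : nn r u = Nr (u.1 : k) ^ 2 / r ^ dg k := by
      unfold nn Nr nr
      rw [← hcard, ← Finset.card_univ, ← Finset.prod_const, ← Finset.prod_pow,
        ← Finset.prod_div_distrib]
      refine Finset.prod_congr rfl fun v _ => ?_
      rw [h]
      simp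
    rw [h2]
    have h3 := hge u.1 h1
    have h4 : 1 ≤ Nr (u.1 : k) ^ 2 := one_le_pow₀ h3
    gcongr
  · have h3 := hge u.2 h
    have h4 : 1 ≤ Nr (u.2 : k) ^ 2 := one_le_pow₀ h3
    have h5 : r ^ dg k * Nr (u.2 : k) ^ 2 ≤ nn r u := by
      unfold nn Nr nr
      rw [← hcard, ← Finset.card_univ, ← Finset.prod_const, ← Finset.prod_pow,
        ← Finset.prod_mul_distrib]
      refine Finset.prod_le_prod (fun v _ => by positivity) fun v _ => ?_
      rw [sq_abs]
      have : 0 ≤ rv v (u.1 : k) ^ 2 / r := by positivity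
      linarith
    have h6 : 1 / r ^ dg k ≤ 1 := by
      rw [div_le_one (by positivity)]
      exact hrn
    nlinarith

theorem pf_BLV (hEMB : T_EMB k) (hBAL : T_BAL k) (hNRD : T_NRD k) : T_BLV k := by
  obtain ⟨-, hdg, -⟩ := hEMB
  obtain ⟨C, hC, hBAL⟩ := hBAL
  have hC0 : 0 < C := by linarith
  refine ⟨C ^ 2, one_le_pow₀ hC, ?_⟩
  intro r u hr hu
  have hpos : ∀ v, 0 < nr r v u := ((hNRD r u u hr).2.1 hu).2
  have hg : ∀ v, 0 < Real.sqrt (nr r v u) := fun v => Real.sqrt_pos.2 (hpos v)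
  obtain ⟨e, he⟩ := hBAL (fun v => Real.sqrt (nr r v u)) hg
  refine ⟨e, fun v => ?_⟩
  obtain ⟨h1, h2⟩ := he v
  set G : ℝ := (∏ v' : Pl k, Real.sqrt (nr r v' u)) ^ (1 / (dg k : ℝ)) with hG
  have hP : 0 < ∏ v' : Pl k, Real.sqrt (nr r v' u) := Finset.prod_pos fun v _ => hg v
  have hG0 : 0 < G := Real.rpow_pos_of_pos hP _
  have hG2 : nn r u ^ (1 / (dg k : ℝ)) = G ^ 2 := by
    have h3 : nn r u = (∏ v' : Pl k, Real.sqrt (nr r v' u)) ^ 2 := by
      rw [← Finset.prod_pow]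
      unfold nn
      exact Finset.prod_congr rfl fun v _ => (Real.sq_sqrt (hpos v).le).symm
    rw [h3, hG, ← Real.rpow_natCast, ← Real.rpow_natCast, ← Real.rpow_mul hP.le,
      ← Real.rpow_mul hP.le, mul_comm]
  have h4 : nr r v ((e : 𝓞 k) • u) = (|rv v ((e : 𝓞 k) : k)| * Real.sqrt (nr r v u)) ^ 2 := by
    rw [mul_pow, Real.sq_sqrt (hpos v).le, sq_abs]
    unfold nr
    simp only [Prod.smul_fst, Prod.smul_snd, smul_eq_mul, map_mul]
    ring
  have h0 : 0 ≤ |rv v ((e : 𝓞 k) : k)| * Real.sqrt (nr r v u) := by positivity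
  have h5 := pow_le_pow_left₀ (div_nonneg hG0.le hC0.le) h1 2
  have h6 := pow_le_pow_left₀ h0 h2 2
  rw [div_pow] at h5
  rw [mul_pow C G 2] at h6
  rw [hG2, h4]
  exact ⟨h5, h6⟩

end Pool.Agent.H89.CM4
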