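import Pool.Agent.H89.CM4.Targets2b

/-!
# The twisted second moment over the reduced forms of a given height (row RDB)
-/

set_option autoImplicit false
set_option linter.unusedVariables false

open MeasureTheory Set Filter NumberField NumberField.InfinitePlace
open scoped Real

namespace Pool.Agent.H89.CM4

open Pool.Agent.H65.CM4

variable (k : Type) [Field k] [NumberField k] [IsTotallyReal k]

omit [IsTotallyReal k] in
theorem dsc_tr {k : Type} [Field k] [NumberField k] (x : 𝓞 k) (Q : QF k) :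
    dsc (tr x Q) = dsc Q := by
  unfold dsc tr
  ring

theorem rv_tr {k : Type} [Field k] [NumberField k] [IsTotallyReal k] (x : 𝓞 k) (Q : QF k)
    (v : Pl k) : rv v ((tr x Q).2.1 : k) = rv v (Q.2.1 : k) + 2 * (rv v (Q.1 : k) * rv v (x : k)) := by
  simp only [tr, map_add, map_mul, map_ofNat]

omit [IsTotallyReal k] in
theorem tr_inj {k : Type} [Field k] [NumberField k] {x : 𝓞 k} {Q Q' : QF k}
    (h : tr x Q = tr x Q') : Q = Q' := by
  unfold tr at h
  obtain ⟨a, b, c⟩ := Q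
  obtain ⟨a', b', c'⟩ := Q'
  simp only [Prod.mk.injEq] at h ⊢
  obtain ⟨h1, h2, h3⟩ := h
  subst h1
  have h4 : b = b' := by linear_combination h2
  subst h4
  exact ⟨rfl, rfl, by linear_combination h3⟩

theorem pf_RDB (hBOX : T_BOX k) (hTRI : T_TRI k) (hLOW : T_LOW k) (hBXC : T_BXC k)
    (hEMB : T_EMB k) : T_RDB k := by
  classical
  intro R b B hAdm hB ε hε
  obtain ⟨c, CL, hc, hCL, -, hLOW⟩ := hLOW
  obtain ⟨CX, hCX, hBXC⟩ := hBXC
  have hb : 0 < b := hAdm.1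
  have hbR : (1 : ℝ) ≤ b := by exact_mod_cast hb
  have hB0 : 0 < B := by linarith
  set B' : ℝ := B ^ 2 + 2 * b * B with hB'
  have hBB' : B ≤ B' := by
    rw [hB']
    nlinarith [mul_pos (show (0 : ℝ) < b by linarith) hB0]
  have hB'1 : 1 ≤ B' := hB.trans hBB'
  have hB'0 : 0 < B' := by linarith
  obtain ⟨κ, hκ0, hκ1, δ, hδ0, hδ1, C, j, hC, hBOX⟩ := hBOX R b B' hAdm hB'1 ε hε
  set m : ℝ := CX * (1 + ∏ _v : Pl k, B) with hm
  have hm0 : 0 ≤ m := by
    have : 0 ≤ ∏ _v : Pl k, B := Finset.prod_nonneg fun _ _ => hB0.le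
    have : 0 ≤ CX := by linarith
    positivity
  refine ⟨κ, hκ0, hκ1, δ, hδ0, hδ1, m * C / c, j, by positivity, ?_⟩
  intro s y r A α M S hs hy hr hry hA hAy hα hM hS
  have hy0 : 0 < y := by linarith
  have hr0 : 0 < r := by linarith
  obtain ⟨X₀, hX1, -, hX2⟩ := hLOW r hr0.le
  set φ : QF k × 𝓞 k → QF k := fun p => tr ((b : 𝓞 k) * p.2) p.1 with hφ
  have hPd : ∀ Q ∈ S, Pd Q := by
    intro Q hQ v
    obtain ⟨h1, -, -, h2, -⟩ := hS Q hQ v
    exact ⟨lt_of_lt_of_le (by positivity) h1, lt_of_lt_of_le (by positivity) h2⟩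
  have hbv : ∀ v : Pl k, rv v (((b : 𝓞 k) : 𝓞 k) : k) = b := by
    intro v
    simp
  -- the box
  have hbox : ∀ Q' ∈ (S ×ˢ X₀).image φ, ∀ v : Pl k, y / (B' * r) ≤ rv v (Q'.1 : k) ∧
      rv v (Q'.1 : k) ≤ B' * y / r ∧ |rv v (Q'.2.1 : k)| ≤ B' * y ∧
      y ^ 2 / B' ≤ rv v (dsc Q' : k) ∧ rv v (dsc Q' : k) ≤ B' * y ^ 2 := by
    intro Q' hQ' v
    rw [Finset.mem_image] at hQ'
    obtain ⟨⟨Q, x⟩, hp, rfl⟩ := hQ'
    rw [Finset.mem_product] at hp
    obtain ⟨hQ, hx⟩ := hp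
    obtain ⟨h1, h2, h3, h4, h5⟩ := hS Q hQ v
    have hx1 := hX1 x hx v
    change y / (B' * r) ≤ rv v (Q.1 : k) ∧ rv v (Q.1 : k) ≤ B' * y / r ∧
      |rv v ((tr ((b : 𝓞 k) * x) Q).2.1 : k)| ≤ B' * y ∧
      y ^ 2 / B' ≤ rv v (dsc (tr ((b : 𝓞 k) * x) Q) : k) ∧
      rv v (dsc (tr ((b : 𝓞 k) * x) Q) : k) ≤ B' * y ^ 2
    rw [dsc_tr, rv_tr]
    have ha0 : 0 < rv v (Q.1 : k) := (hPd Q hQ v).1
    refine ⟨le_trans ?_ h1, h2.trans ?_, ?_, le_trans ?_ h4, h5.trans ?_⟩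
    · gcongr
    · gcongr
    · have e1 : rv v (((b : 𝓞 k) * x : 𝓞 k) : k) = b * rv v (x : k) := by
        rw [← hbv v, ← map_mul]
        rfl
      rw [e1]
      have h6 : |rv v (Q.2.1 : k) + 2 * (rv v (Q.1 : k) * (b * rv v (x : k)))| ≤
          B * rv v (Q.1 : k) + 2 * (rv v (Q.1 : k) * (b * r)) := by
        refine (abs_add_le _ _).trans (add_le_add h3 ?_)
        rw [abs_mul, abs_mul, abs_mul, abs_of_pos ha0, abs_of_pos (show (0 : ℝ) < 2 by norm_num),
          abs_of_pos (show (0 : ℝ) < b by linarith)]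
        gcongr
      refine h6.trans ?_
      have h7 : B * rv v (Q.1 : k) ≤ B * (B * y) := by
        have : B * y / r ≤ B * y := div_le_self (by positivity) hr
        gcongr
        exact h2.trans this
      have h8 : rv v (Q.1 : k) * r ≤ B * y := by
        rw [le_div_iff₀ hr0] at h2
        exact h2
      rw [hB']
      nlinarith
    · gcongr
    · gcongr
  have hmain := hBOX s y r A α M ((S ×ˢ X₀).image φ) hs hy hr
    (hry.trans (by gcongr)) hA hAy hα hM hbox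
  -- multiplicities
  have hmult : ∀ Q' ∈ (S ×ˢ X₀).image φ,
      (((S ×ˢ X₀).filter (fun p => φ p = Q')).card : ℝ) ≤ m := by
    intro Q' hQ'
    set Fb := (S ×ˢ X₀).filter (fun p => φ p = Q') with hFb
    have hinj : Set.InjOn (fun p : QF k × 𝓞 k => ((p.2 : 𝓞 k) : k)) (Fb : Set (QF k × 𝓞 k)) := by
      intro p hp p' hp' h
      rw [Finset.mem_coe, hFb, Finset.mem_filter] at hp hp'
      have h1 : p.2 = p'.2 := RingOfIntegers.coe_injective h
      have h2 : tr ((b : 𝓞 k) * p.2) p.1 = tr ((b : 𝓞 k) * p.2) p'.1 := by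
        have h3 := hp.2.trans hp'.2.symm
        simp only [hφ] at h3
        rw [← h1] at h3
        exact h3
      exact Prod.ext (tr_inj h2) h1
    rw [← Finset.card_image_of_injOn hinj]
    have h1 := hBXC 1 (fun _ => B) (Fb.image (fun p : QF k × 𝓞 k => ((p.2 : 𝓞 k) : k)))
      one_pos (fun _ => hB0.le) ?_
    · rw [hm]
      simpa using h1
    · intro x hx x' hx' hxx'
      rw [Finset.mem_image] at hx hx'
      obtain ⟨p, hp, rfl⟩ := hx
      obtain ⟨p', hp', rfl⟩ := hx'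
      rw [hFb, Finset.mem_filter, Finset.mem_product] at hp hp'
      obtain ⟨⟨hpS, -⟩, hpe⟩ := hp
      obtain ⟨⟨hpS', -⟩, hpe'⟩ := hp'
      constructor
      · have h2 : p.2 - p'.2 ≠ 0 := by
          intro h3
          exact hxx' (by rw [sub_eq_zero.1 h3])
        have h3 := hEMB.2.2.2.2.2.2.2.2.2.1 (p.2 - p'.2) h2
        exact h3
      · intro v
        have h2 : tr ((b : 𝓞 k) * p.2) p.1 = tr ((b : 𝓞 k) * p'.2) p'.1 := hpe.trans hpe'.symm
        have h3 : p.1.1 = p'.1.1 := (Prod.ext_iff.1 h2).1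
        have h4 : rv v ((tr ((b : 𝓞 k) * p.2) p.1).2.1 : k) =
            rv v ((tr ((b : 𝓞 k) * p'.2) p'.1).2.1 : k) := by rw [h2]
        rw [rv_tr, rv_tr, ← h3] at h4
        have e1 : ∀ x : 𝓞 k, rv v (((b : 𝓞 k) * x : 𝓞 k) : k) = b * rv v (x : k) := by
          intro x
          rw [← hbv v, ← map_mul]
          rfl
        rw [e1, e1] at h4
        have ha0 : 0 < rv v (p.1.1 : k) := (hPd p.1 hpS v).1
        have h5 := (hS p.1 hpS v).2.2.1
        have h6 := (hS p'.1 hpS' v).2.2.1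
        rw [← h3] at h6
        rw [map_sub]
        set a := rv v (p.1.1 : k) with ha
        set u := rv v ((p.2 : 𝓞 k) : k) - rv v ((p'.2 : 𝓞 k) : k) with hu
        have h7 : 2 * a * b * u = rv v (p'.1.2.1 : k) - rv v (p.1.2.1 : k) := by
          rw [hu]
          linear_combination h4
        have h8 : 2 * a * b * |u| ≤ 2 * a * B := by
          calc 2 * a * b * |u| = |2 * a * b * u| := by
                rw [abs_mul, abs_of_pos (show 0 < 2 * a * b by positivity)]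
            _ = |rv v (p'.1.2.1 : k) - rv v (p.1.2.1 : k)| := by rw [h7]
            _ ≤ |rv v (p'.1.2.1 : k)| + |rv v (p.1.2.1 : k)| := abs_sub _ _
            _ ≤ B * a + B * a := add_le_add h6 h5
            _ = 2 * a * B := by ring
        have h9 : b * |u| ≤ B := by
          have : 2 * a * (b * |u|) ≤ 2 * a * B := by linarith
          exact le_of_mul_le_mul_left this (by positivity)
        calc |u| ≤ b * |u| := le_mul_of_one_le_left (abs_nonneg _) hbR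
          _ ≤ B := h9
  -- the double sum
  have hdouble : (X₀.card : ℝ) * ∑ Q ∈ S, ‖Bf s α b A M Q‖ ^ 2 ≤
      m * ∑ Q' ∈ (S ×ˢ X₀).image φ, ‖Bf s α b A M Q'‖ ^ 2 := by
    have e1 : (X₀.card : ℝ) * ∑ Q ∈ S, ‖Bf s α b A M Q‖ ^ 2 =
        ∑ p ∈ S ×ˢ X₀, ‖Bf s α b A M (φ p)‖ ^ 2 := by
      rw [Finset.sum_product, Finset.mul_sum]
      refine Finset.sum_congr rfl fun Q hQ => ?_
      rw [Finset.sum_congr rfl (fun x _ => by
        rw [show Bf s α b A M (φ (Q, x)) = Bf s α b A M Q from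
          hTRI b M s α A Q x hb hM (hPd Q hQ)]), Finset.sum_const, nsmul_eq_mul]
    rw [e1, Finset.sum_comp (fun Q' => ‖Bf s α b A M Q'‖ ^ 2) φ, Finset.mul_sum]
    refine Finset.sum_le_sum fun Q' hQ' => ?_
    rw [nsmul_eq_mul]
    exact mul_le_mul_of_nonneg_right (hmult Q' hQ') (by positivity)
  have hSn : 0 ≤ ∑ Q ∈ S, ‖Bf s α b A M Q‖ ^ 2 := Finset.sum_nonneg fun _ _ => by positivity
  have h1 : c * r ^ dg k * ∑ Q ∈ S, ‖Bf s α b A M Q‖ ^ 2 ≤
      m * (C * ht k j s.im ^ 2 * y ^ (dg k * (3 + ε)) * r ^ dg k * A) := by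
    calc c * r ^ dg k * ∑ Q ∈ S, ‖Bf s α b A M Q‖ ^ 2 ≤
        (X₀.card : ℝ) * ∑ Q ∈ S, ‖Bf s α b A M Q‖ ^ 2 := by gcongr
      _ ≤ _ := hdouble.trans (mul_le_mul_of_nonneg_left hmain hm0)
  have hrn : 0 < r ^ dg k := by positivity
  have h2 : c * ∑ Q ∈ S, ‖Bf s α b A M Q‖ ^ 2 ≤
      m * (C * ht k j s.im ^ 2 * y ^ (dg k * (3 + ε)) * A) := by
    apply le_of_mul_le_mul_right _ hrn
    linarith
  calc ∑ Q ∈ S, ‖Bf s α b A M Q‖ ^ 2 = c * (∑ Q ∈ S, ‖Bf s α b A M Q‖ ^ 2) / c := by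
        field_simp
    _ ≤ m * (C * ht k j s.im ^ 2 * y ^ (dg k * (3 + ε)) * A) / c := by gcongr
    _ = _ := by ring

end Pool.Agent.H89.CM4
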