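import Pool.Agent.H13.CM4.HEC
import Pool.Agent.H2.CM4.FML
import Pool.Agent.H2.CM4.TM
import Pool.Agent.H31.CM4.EXP
import Pool.Agent.H33.CM4.CAS
import Pool.Agent.H34.CM4.FZC
import Pool.Agent.H39.CM4.CFB
import Pool.Agent.H4.CM4.HE1
import Pool.Agent.H4.CM4.QZR
import Pool.Agent.H45.CM4.ECC
import Pool.Agent.H45.CM4.LSM
import Pool.Agent.H45.CM4.QCB
import Pool.Agent.H49.CM4.TRI
import Pool.Agent.H58.CM4.KMN
import Pool.Agent.H60.CM4.CA1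
import Pool.Agent.H60.CM4.FOR
import Pool.Agent.H60.CM4.IND
import Pool.Agent.H61.CM4.BIX
import Pool.Agent.H64.CM4.CNL
import Pool.Agent.H74.CM4.CVR
import Pool.Agent.H89.CM4.BOX
import Pool.Agent.H89.CM4.CEL
import Pool.Agent.H89.CM4.DUL
import Pool.Agent.H89.CM4.IXF
import Pool.Agent.H89.CM4.RDB
import Pool.Agent.H90.CM4.LCN
import Pool.Agent.H91.CM4.ECB
import Pool.Agent.H96.CM4.IXC
import Pool.Agent.H61.CM4B.AsmB1
import Pool.Agent.H65.CM4.AsmA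
import Pool.Agent.H89.CM4.Targets2
import Pool.Agent.H89.CM4.Targets2b

/-!
# Assembly
-/

set_option autoImplicit false

open MeasureTheory Set Filter NumberField NumberField.InfinitePlace
open scoped Real

namespace Pool.Agent.H89.CM4

open Pool.Agent.H65.CM4 Pool.Agent.H61.CM4

theorem e_BBLV (k : Type) [Field k] [NumberField k] [IsTotallyReal k] : T_BLV k :=
  Pool.Agent.H89.CM4.pf_BLV k (Pool.Agent.H65.CM4.a_EMB k) (Pool.Agent.H65.CM4.a_BAL k) (Pool.Agent.H65.CM4.a_NRD k)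

theorem e_BCA1 : T_CA1 :=
  Pool.Agent.H60.CM4.pf_CA1 

theorem e_BCAS : T_CAS :=
  Pool.Agent.H33.CM4.pf_CAS e_BCA1

theorem e_BCNL (k : Type) [Field k] [NumberField k] [IsTotallyReal k] : T_CNL k :=
  Pool.Agent.H64.CM4.pf_CNL k (Pool.Agent.H65.CM4.a_FLS k) (Pool.Agent.H65.CM4.a_CRT k) (Pool.Agent.H65.CM4.a_LSP k) (Pool.Agent.H65.CM4.a_IDC k)

theorem e_BCVR (k : Type) [Field k] [NumberField k] [IsTotallyReal k] : T_CVR k :=
  Pool.Agent.H74.CM4.pf_CVR k (Pool.Agent.H65.CM4.a_EMB k)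

theorem e_BFML (k : Type) [Field k] [NumberField k] [IsTotallyReal k] : T_FML k :=
  Pool.Agent.H2.CM4.pf_FML k 

theorem e_BFOR (k : Type) [Field k] [NumberField k] [IsTotallyReal k] : T_FOR k :=
  Pool.Agent.H60.CM4.pf_FOR k 

theorem e_BIND (k : Type) [Field k] [NumberField k] [IsTotallyReal k] : T_IND k :=
  Pool.Agent.H60.CM4.pf_IND k (Pool.Agent.H65.CM4.a_IDC k)

theorem e_BIXF (k : Type) [Field k] [NumberField k] [IsTotallyReal k] : T_IXF k :=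
  Pool.Agent.H89.CM4.pf_IXF k (Pool.Agent.H65.CM4.a_EMB k)

theorem e_BLCN (k : Type) [Field k] [NumberField k] [IsTotallyReal k] : T_LCN k :=
  Pool.Agent.H90.CM4.pf_LCN k (Pool.Agent.H65.CM4.a_EMB k) (Pool.Agent.H65.CM4.a_BXC k) (e_BBLV k) (Pool.Agent.H65.CM4.a_NRD k) (e_BFOR k) (Pool.Agent.H65.CM4.a_MIN k)

theorem e_BLSM (k : Type) [Field k] [NumberField k] [IsTotallyReal k] : T_LSM k :=
  Pool.Agent.H45.CM4.pf_LSM k (e_BLCN k) (Pool.Agent.H65.CM4.a_MIN k)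

theorem e_BMNL (k : Type) [Field k] [NumberField k] [IsTotallyReal k] : T_MNL k :=
  Pool.Agent.H89.CM4.pf_MNL k (Pool.Agent.H65.CM4.a_EMB k) (Pool.Agent.H65.CM4.a_MIN k)

theorem e_BQCB (k : Type) [Field k] [NumberField k] [IsTotallyReal k] : T_QCB k :=
  Pool.Agent.H45.CM4.pf_QCB k (Pool.Agent.H65.CM4.a_NRD k)

theorem e_BQZR (k : Type) [Field k] [NumberField k] [IsTotallyReal k] : T_QZR k :=
  Pool.Agent.H4.CM4.pf_QZR k (Pool.Agent.H65.CM4.a_EMB k)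

theorem e_BTRI (k : Type) [Field k] [NumberField k] [IsTotallyReal k] : T_TRI k :=
  Pool.Agent.H49.CM4.pf_TRI k (e_BFOR k) (e_BQZR k) (Pool.Agent.H65.CM4.a_FLS k) (Pool.Agent.H65.CM4.a_IDC k)

theorem e_BBIX (k : Type) [Field k] [NumberField k] [IsTotallyReal k] : T_BIX k :=
  Pool.Agent.H61.CM4.pf_BIX k (Pool.Agent.H65.CM4.a_EMB k) (e_BIXF k)

theorem e_BDUL (k : Type) [Field k] [NumberField k] [IsTotallyReal k] : T_DUL k :=
  Pool.Agent.H89.CM4.pf_DUL k (Pool.Agent.H65.CM4.a_EMB k) (Pool.Agent.H65.CM4.a_MKI k) (e_BBIX k) (Pool.Agent.H65.CM4.a_MIN k)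

theorem e_BECB (k : Type) [Field k] [NumberField k] [IsTotallyReal k] : T_ECB k :=
  Pool.Agent.H91.CM4.pf_ECB k (Pool.Agent.H61.CM4B.e_KCB k) (e_BQCB k) (e_BLSM k) (e_BBIX k) (e_BDUL k) (Pool.Agent.H65.CM4.a_MIN k) (Pool.Agent.H65.CM4.a_NRD k)

theorem e_BECC (k : Type) [Field k] [NumberField k] [IsTotallyReal k] : T_ECC k :=
  Pool.Agent.H45.CM4.pf_ECC k (Pool.Agent.H61.CM4B.e_KCB k) (Pool.Agent.H61.CM4B.e_KCD k) (e_BQCB k) (e_BLSM k) (e_BBIX k) (e_BDUL k) (Pool.Agent.H65.CM4.a_MIN k) (Pool.Agent.H65.CM4.a_NRD k)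

theorem e_BIXC (k : Type) [Field k] [NumberField k] [IsTotallyReal k] : T_IXC k :=
  Pool.Agent.H96.CM4.pf_IXC k (Pool.Agent.H65.CM4.a_EMB k) (Pool.Agent.H65.CM4.a_FLS k) (e_BIXF k)

theorem e_BKMN (k : Type) [Field k] [NumberField k] [IsTotallyReal k] : T_KMN k :=
  Pool.Agent.H58.CM4.pf_KMN k (Pool.Agent.H65.CM4.a_EMB k) (Pool.Agent.H65.CM4.a_MKI k) (Pool.Agent.H65.CM4.a_MIN k) (Pool.Agent.H65.CM4.a_FLS k) (e_BIXC k) (Pool.Agent.H65.CM4.a_NRD k)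

theorem e_BCFB (k : Type) [Field k] [NumberField k] [IsTotallyReal k] : T_CFB k :=
  Pool.Agent.H39.CM4.pf_CFB k (e_BECB k) (e_BKMN k) (e_BIXC k) (e_BMNL k) (Pool.Agent.H65.CM4.a_IDC k) (Pool.Agent.H65.CM4.a_DVI k) (Pool.Agent.H65.CM4.a_EMB k) (Pool.Agent.H65.CM4.a_MIN k) (Pool.Agent.H65.CM4.a_FLS k)

theorem e_BFZC (k : Type) [Field k] [NumberField k] [IsTotallyReal k] : T_FZC k :=
  Pool.Agent.H34.CM4.pf_FZC k (e_BECC k) (e_BIXC k) (Pool.Agent.H65.CM4.a_IDC k)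

theorem e_BHE1 (k : Type) [Field k] [NumberField k] [IsTotallyReal k] : T_HE1 k :=
  Pool.Agent.H4.CM4.pf_HE1 k (Pool.Agent.H61.CM4B.e_EZA k) (e_BCNL k) (e_BIXC k) (e_BQZR k) (Pool.Agent.H65.CM4.a_CRT k) (Pool.Agent.H65.CM4.a_FLS k) (Pool.Agent.H65.CM4.a_IDC k)

theorem e_BHEC (k : Type) [Field k] [NumberField k] [IsTotallyReal k] : T_HEC k :=
  Pool.Agent.H13.CM4.pf_HEC k (e_BHE1 k) (Pool.Agent.H61.CM4B.e_EZA k) (e_BIXC k) (Pool.Agent.H65.CM4.a_FLS k) (Pool.Agent.H65.CM4.a_CRT k)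

theorem e_BEXP (k : Type) [Field k] [NumberField k] [IsTotallyReal k] : T_EXP k :=
  Pool.Agent.H31.CM4.pf_EXP k (e_BHEC k) (e_BIND k) (Pool.Agent.H65.CM4.a_RFM k) (Pool.Agent.H65.CM4.a_CRT k) (Pool.Agent.H65.CM4.a_FLS k) (Pool.Agent.H65.CM4.a_IDC k) (e_BQZR k)

theorem e_BCEL (k : Type) [Field k] [NumberField k] [IsTotallyReal k] : T_CEL k :=
  Pool.Agent.H89.CM4.pf_CEL k e_BCAS (e_BFZC k) (e_BCFB k) (e_BEXP k) (Pool.Agent.H65.CM4.a_LS k) (Pool.Agent.H65.CM4.a_EMB k)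

theorem e_BBOX (k : Type) [Field k] [NumberField k] [IsTotallyReal k] : T_BOX k :=
  Pool.Agent.H89.CM4.pf_BOX k (e_BCEL k) (e_BCVR k) (Pool.Agent.H65.CM4.a_EMB k)

theorem e_BRDB (k : Type) [Field k] [NumberField k] [IsTotallyReal k] : T_RDB k :=
  Pool.Agent.H89.CM4.pf_RDB k (e_BBOX k) (e_BTRI k) (Pool.Agent.H65.CM4.a_LOW k) (Pool.Agent.H65.CM4.a_BXC k) (Pool.Agent.H65.CM4.a_EMB k)

theorem e_BTM : T_TM :=
  Pool.Agent.H2.CM4.pf_TM (fun (k : Type) [Field k] [NumberField k] [IsTotallyReal k] => e_BRDB k) (fun (k : Type) [Field k] [NumberField k] [IsTotallyReal k] => e_BFML k) (fun (k : Type) [Field k] [NumberField k] [IsTotallyReal k] => Pool.Agent.H65.CM4.a_CHX k) (fun (k : Type) [Field k] [NumberField k] [IsTotallyReal k] => Pool.Agent.H65.CM4.a_EMB k)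

end Pool.Agent.H89.CM4
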