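import Pool.Agent.H61.CM4.TargetsB
import Pool.Agent.H89.CM4.Targets2

/-!
# The bridges between the two halves of the part B
-/

set_option autoImplicit false
set_option linter.unusedVariables false

open MeasureTheory Set Filter NumberField NumberField.InfinitePlace
open scoped Real

namespace Pool.Agent.H89.CM4

open Pool.Agent.H65.CM4

variable (k : Type) [Field k] [NumberField k] [IsTotallyReal k]

theorem br_KCB (h : Pool.Agent.H61.CM4.T_KCB) : T_KCB k := by
  intro κ hκ0 hκ1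
  obtain ⟨C, j, hC, h⟩ := h (dg k) 3 κ hκ0 hκ1
  refine ⟨C, j, hC, ?_⟩
  intro s r hs hr hri
  have hT : 0 < 1 + |s.im| := by positivity
  have h1 : |r.im| ≤ r.re / (10 * (1 + |s.im|)) := by
    rw [le_div_iff₀ (by positivity)]
    linarith
  refine (h s r hs hr h1).trans ?_
  have hre : r.re ≤ ‖r‖ := Complex.re_le_norm r
  have h2 : ‖r‖ ^ (-(1 / 2 + 2 * κ)) ≤ r.re ^ (-(1 / 2 + 2 * κ)) :=
    Real.rpow_le_rpow_of_nonpos hr hre (by linarith)
  have h3 : (1 + ‖r‖) ^ (-((3 : ℕ) : ℝ)) ≤ (1 + r.re) ^ (-(3 : ℝ)) := by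
    have h4 : ((3 : ℕ) : ℝ) = 3 := by norm_num
    rw [h4]
    exact Real.rpow_le_rpow_of_nonpos (by linarith) (by linarith) (by norm_num)
  have h4 : (1 + |s.im|) ^ j * Real.exp (-(π * dg k * |s.im| / 2)) = ht k j s.im := by
    unfold ht
    congr 2
    ring
  have h5 : 0 ≤ (1 + ‖r‖) ^ (-((3 : ℕ) : ℝ)) := by positivity
  have h6 : 0 ≤ r.re ^ (-(1 / 2 + 2 * κ)) := by positivity
  calc C * (1 + |s.im|) ^ j * Real.exp (-(π * dg k * |s.im| / 2)) *
      (‖r‖ ^ (-(1 / 2 + 2 * κ)) * (1 + ‖r‖) ^ (-((3 : ℕ) : ℝ))) ≤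
      C * (1 + |s.im|) ^ j * Real.exp (-(π * dg k * |s.im| / 2)) *
      (r.re ^ (-(1 / 2 + 2 * κ)) * (1 + r.re) ^ (-(3 : ℝ))) := by
        apply mul_le_mul_of_nonneg_left _ (by positivity)
        exact mul_le_mul h2 h3 h5 h6
    _ = _ := by
        rw [← h4]
        ring

theorem br_KCD (h : Pool.Agent.H61.CM4.T_KCD) : T_KCD k := by
  intro s r hs hr hri
  obtain ⟨h1, h2⟩ := abs_le.1 hs
  have h3 := h (dg k) s (by linarith) (by linarith)
  exact h3.differentiableAt (Complex.isOpen_slitPlane.mem_nhds (Or.inl hr))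

theorem br_EZA (h : Pool.Agent.H61.CM4.T_EZA) : T_EZA k := by
  classical
  intro M x y hM hy
  obtain ⟨hpos, hqn, hsum, Φ, hΦ, -, hEz, hΦ2⟩ := h k M x y hM hy
  refine ⟨?_, ?_⟩
  · refine DifferentiableOn.congr hΦ.differentiableOn ?_
    intro s hs
    exact hEz s (by linarith [hs.1]) hs.2
  · intro s hs1 hs2
    refine ⟨?_, ?_⟩
    · have hm : (0 : ℝ) < ix M := by exact_mod_cast Nat.pos_of_ne_zero hM
      have h1 := (hsum s.re hs1).mul_right ((ix M : ℝ) ^ s.re)
      refine Summable.of_norm_bounded h1 ?_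
      intro u
      by_cases hu : u ∈ M ∧ u ∈ Fo k
      · rw [if_pos hu, if_pos hu, hqn]
        have hu0 : u ≠ 0 := hu.2.1
        have hq := hpos u hu0
        have h2 : (((Pool.Agent.H61.CM4.qp x y u : ℝ) : ℂ) / (ix M : ℂ)) =
            ((Pool.Agent.H61.CM4.qp x y u / ix M : ℝ) : ℂ) := by
          push_cast
          rfl
        rw [h2, Complex.norm_cpow_eq_rpow_re_of_pos (by positivity), Complex.neg_re,
          Real.div_rpow hq.le hm.le, Real.rpow_neg hm.le, div_inv_eq_mul]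
      · rw [if_neg hu, if_neg hu]
        simp
    · rw [hEz s (by linarith) hs2, hΦ2 s hs1]

end Pool.Agent.H89.CM4
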